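import Pool.Agent.H559.NT.Stm

/-!
# Project NT: Cauchy estimates, limits and local surjectivity in `E`
-/

set_option autoImplicit false

open Set Filter Topology Metric

namespace Pool.Agent.H559.NT

universe u v

theorem norm_fderiv_le_of_ball {E : Type u} [NormedAddCommGroup E] [NormedSpace ℂ E]
    {F : Type v} [NormedAddCommGroup F] [NormedSpace ℂ F] [CompleteSpace F]
    {g : E → F} {z : E} {r M : ℝ} (hr : 0 < r) (hg : DifferentiableOn ℂ g (ball z r))
    (hM : ∀ y ∈ ball z r, ‖g y‖ ≤ M) : ‖fderiv ℂ g z‖ ≤ M / r := by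
  have hM0 : 0 ≤ M := (norm_nonneg _).trans (hM z (mem_ball_self hr))
  have key : ∀ s : ℝ, 0 < s → s < r → ‖fderiv ℂ g z‖ ≤ M / s := by
    intro s hs hsr
    refine ContinuousLinearMap.opNorm_le_bound _ (by positivity) fun v => ?_
    rcases eq_or_ne v 0 with rfl | hv
    · simp
    have hv0 : 0 < ‖v‖ := norm_pos_iff.2 hv
    let h : ℂ → F := fun t => g (z + t • v)
    have hmaps : ∀ t : ℂ, ‖t‖ < r / ‖v‖ → z + t • v ∈ ball z r := by
      intro t ht
      rw [mem_ball, dist_eq_norm, add_sub_cancel_left, norm_smul]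
      rwa [lt_div_iff₀ hv0] at ht
    have hd : ∀ t : ℂ, ‖t‖ < r / ‖v‖ → DifferentiableAt ℂ h t := by
      intro t ht
      have h1 : DifferentiableAt ℂ g (z + t • v) :=
        hg.differentiableAt (isOpen_ball.mem_nhds (hmaps t ht))
      exact h1.comp t (by fun_prop)
    have hsv : s / ‖v‖ < r / ‖v‖ := by gcongr
    have h1 : ‖deriv h 0‖ ≤ M / (s / ‖v‖) := by
      refine Complex.norm_deriv_le_of_forall_mem_sphere_norm_le (by positivity) ?_ ?_
      · refine DifferentiableOn.diffContOnCl fun t ht => ?_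
        have h2 : t ∈ closedBall (0 : ℂ) (s / ‖v‖) := closure_ball_subset_closedBall ht
        rw [mem_closedBall, dist_zero_right] at h2
        exact (hd t (h2.trans_lt hsv)).differentiableWithinAt
      · intro t ht
        rw [mem_sphere, dist_zero_right] at ht
        exact hM _ (hmaps t (ht ▸ hsv))
    have h2 : deriv h 0 = fderiv ℂ g z v := by
      have h3 : HasFDerivAt g (fderiv ℂ g z) (z + (0 : ℂ) • v) := by
        rw [zero_smul, add_zero]
        exact (hg.differentiableAt (isOpen_ball.mem_nhds (mem_ball_self hr))).hasFDerivAt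
      have h4 : HasDerivAt (fun t : ℂ => z + t • v) v 0 := by
        simpa using ((hasDerivAt_id (0 : ℂ)).smul_const v).const_add z
      exact (h3.comp_hasDerivAt (0 : ℂ) h4).deriv
    rw [h2] at h1
    calc ‖fderiv ℂ g z v‖ ≤ M / (s / ‖v‖) := h1
      _ = M / s * ‖v‖ := by field_simp
  rw [le_div_iff₀ hr]
  refine le_of_forall_lt_imp_le_of_dense fun b hb => ?_
  rcases le_or_gt b 0 with hb0 | hb0
  · exact hb0.trans hM0
  have hD : 0 < ‖fderiv ℂ g z‖ := by
    rcases (norm_nonneg (fderiv ℂ g z)).eq_or_lt with h | h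
    · rw [← h, zero_mul] at hb; linarith
    · exact h
  have h1 := key (b / ‖fderiv ℂ g z‖) (by positivity) (by rw [div_lt_iff₀ hD]; linarith)
  rw [le_div_iff₀ (by positivity)] at h1
  rwa [mul_div_cancel₀ _ hD.ne'] at h1

theorem cauchy : S_CAUCHY.{u, v} := by
  intro E _ _ F _ _ _ g x R M hR hg hM
  have h1 : ∀ z ∈ ball x (R / 2), ‖fderiv ℂ g z‖ ≤ 2 * M / R := by
    intro z hz
    have hsub : ball z (R / 2) ⊆ ball x R := by
      refine ball_subset_ball' ?_
      rw [mem_ball] at hz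
      linarith
    have := norm_fderiv_le_of_ball (half_pos hR) (hg.mono hsub) fun y hy => hM y (hsub hy)
    calc ‖fderiv ℂ g z‖ ≤ M / (R / 2) := this
      _ = 2 * M / R := by field_simp
  refine ⟨h1, fun z hz w hw => ?_⟩
  refine (convex_ball x (R / 2)).norm_image_sub_le_of_norm_fderiv_le (𝕜 := ℂ) (fun y hy => ?_) h1
    hw hz
  exact hg.differentiableAt (isOpen_ball.mem_nhds (ball_subset_ball (by linarith) hy))

section lim

variable {E : Type u} [NormedAddCommGroup E] [NormedSpace ℂ E] [FiniteDimensional ℂ E]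
  {F : Type v} [NormedAddCommGroup F] [NormedSpace ℂ F] [CompleteSpace F]
  {ι : Type} {l : Filter ι} [l.NeBot] {f : ι → E → F} {g : E → F} {x : E} {R M : ℝ}

theorem unif (hR : 0 < R)
    (hf : ∀ᶠ m in l, DifferentiableOn ℂ (f m) (ball x R) ∧ ∀ z ∈ ball x R, ‖f m z‖ ≤ M)
    (hg : ∀ z ∈ ball x R, Tendsto (fun m => f m z) l (𝓝 (g z))) :
    TendstoUniformlyOn f g l (ball x (R / 2)) := by
  have hM0 : 0 ≤ M := by
    obtain ⟨m, hm⟩ := hf.exists
    exact (norm_nonneg _).trans (hm.2 x (mem_ball_self hR))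
  have hsub : ball x (R / 2) ⊆ ball x R := ball_subset_ball (by linarith)
  have hlip : ∀ᶠ m in l, ∀ z ∈ ball x (R / 2), ∀ w ∈ ball x (R / 2),
      ‖f m z - f m w‖ ≤ 2 * M / R * ‖z - w‖ :=
    hf.mono fun m hm => (cauchy E F (f m) x R M hR hm.1 hm.2).2
  have hglip : ∀ z ∈ ball x (R / 2), ∀ w ∈ ball x (R / 2),
      ‖g z - g w‖ ≤ 2 * M / R * ‖z - w‖ := by
    intro z hz w hw
    exact le_of_tendsto (((hg z (hsub hz)).sub (hg w (hsub hw))).norm)
      (hlip.mono fun m hm => hm z hz w hw)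
  have : ProperSpace E := FiniteDimensional.proper ℂ E
  have htb : TotallyBounded (ball x (R / 2)) :=
    (isCompact_closedBall x (R / 2)).totallyBounded.subset ball_subset_closedBall
  rw [Metric.tendstoUniformlyOn_iff]
  intro ε hε
  let L : ℝ := 2 * M / R + 1
  have hL : 0 < L := by positivity
  obtain ⟨T, hTs, hTf, hTc⟩ := Metric.finite_approx_of_totallyBounded htb (ε / (3 * L))
    (by positivity)
  have hT : ∀ᶠ m in l, ∀ t ∈ T, dist (f m t) (g t) < ε / 3 :=
    (Filter.eventually_all_finite hTf).2 fun t ht =>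
      (Metric.tendsto_nhds.1 (hg t (hsub (hTs ht)))) _ (by positivity)
  filter_upwards [hT, hlip] with m hm1 hm2 z hz
  obtain ⟨t, ht, hzt⟩ := mem_iUnion₂.1 (hTc hz)
  rw [mem_ball] at hzt
  have e1 : dist (g z) (g t) ≤ ε / 3 := by
    rw [dist_eq_norm]
    calc ‖g z - g t‖ ≤ 2 * M / R * ‖z - t‖ := hglip z hz t (hTs ht)
      _ ≤ L * (ε / (3 * L)) := by
        rw [← dist_eq_norm]
        apply mul_le_mul _ hzt.le dist_nonneg hL.le
        simp [L]
      _ = ε / 3 := by field_simp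
  have e2 : dist (f m t) (f m z) ≤ ε / 3 := by
    rw [dist_comm, dist_eq_norm]
    calc ‖f m z - f m t‖ ≤ 2 * M / R * ‖z - t‖ := hm2 z hz t (hTs ht)
      _ ≤ L * (ε / (3 * L)) := by
        rw [← dist_eq_norm]
        apply mul_le_mul _ hzt.le dist_nonneg hL.le
        simp [L]
      _ = ε / 3 := by field_simp
  have e3 := hm1 t ht
  rw [dist_comm] at e3
  calc dist (g z) (f m z) ≤ dist (g z) (g t) + dist (g t) (f m t) + dist (f m t) (f m z) :=
        dist_triangle4 _ _ _ _
    _ < ε := by linarith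

theorem elim'
    (hf : ∀ᶠ m in l, DifferentiableOn ℂ (f m) (ball x R) ∧ ∀ z ∈ ball x R, ‖f m z‖ ≤ M)
    (hg : ∀ z ∈ ball x R, Tendsto (fun m => f m z) l (𝓝 (g z))) :
    DifferentiableOn ℂ g (ball x R) := by
  intro z hz
  refine DifferentiableAt.differentiableWithinAt ?_
  obtain ⟨r, hr, hrs⟩ := Metric.isOpen_iff.1 isOpen_ball z hz
  have hu : TendstoUniformlyOn f g l (ball z (r / 2)) :=
    unif hr (hf.mono fun m hm => ⟨hm.1.mono hrs, fun y hy => hm.2 y (hrs hy)⟩)
      fun y hy => hg y (hrs hy)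
  have hc : UniformCauchySeqOn f l (ball z (r / 2)) := hu.uniformCauchySeqOn
  have hdiff : ∀ᶠ m in l, DifferentiableOn ℂ (f m) (ball z (r / 2)) :=
    hf.mono fun m hm => hm.1.mono ((ball_subset_ball (by linarith)).trans hrs)
  have hc' : UniformCauchySeqOn (fun m y => fderiv ℂ (f m) y) l (ball z (r / 4)) := by
    intro u hu
    obtain ⟨ε, hε, hεu⟩ := Metric.mem_uniformity_dist.1 hu
    have h1 := hc _ (Metric.dist_mem_uniformity (show 0 < ε * (r / 4) / 2 by positivity))
    have h2 : ∀ᶠ p : ι × ι in l ×ˢ l, DifferentiableOn ℂ (f p.1) (ball z (r / 2)) ∧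
        DifferentiableOn ℂ (f p.2) (ball z (r / 2)) := hdiff.prod_mk hdiff
    filter_upwards [h1, h2] with p hp hdp y hy
    apply hεu
    have hys : ball y (r / 4) ⊆ ball z (r / 2) := by
      refine ball_subset_ball' ?_
      rw [mem_ball] at hy
      linarith
    have hy' : ball z (r / 2) ∈ 𝓝 y := isOpen_ball.mem_nhds (hys (mem_ball_self (by linarith)))
    have h3 : fderiv ℂ (f p.1) y - fderiv ℂ (f p.2) y =
        fderiv ℂ (fun w => f p.1 w - f p.2 w) y :=
      (fderiv_fun_sub (hdp.1.differentiableAt hy') (hdp.2.differentiableAt hy')).symm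
    rw [dist_eq_norm, h3]
    have h4 := norm_fderiv_le_of_ball (g := fun w => f p.1 w - f p.2 w) (z := y)
      (M := ε * (r / 4) / 2) (show 0 < r / 4 by linarith)
      ((hdp.1.mono hys).sub (hdp.2.mono hys)) (fun w hw => by
        have := hp w (hys hw)
        simp only [dist_eq_norm] at this
        exact this.le)
    calc ‖fderiv ℂ (fun w => f p.1 w - f p.2 w) y‖ ≤ ε * (r / 4) / 2 / (r / 4) := h4
      _ = ε / 2 := by field_simp
      _ < ε := by linarith
  have hlim : ∀ y ∈ ball z (r / 4), ∃ D : E →L[ℂ] F,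
      Tendsto (fun m => fderiv ℂ (f m) y) l (𝓝 D) := fun y hy =>
    CompleteSpace.complete (hc'.cauchy_map hy)
  choose! g' hg' using hlim
  have hu' : TendstoUniformlyOn (fun m y => fderiv ℂ (f m) y) g' l (ball z (r / 4)) :=
    hc'.tendstoUniformlyOn_of_tendsto hg'
  have h1 : HasFDerivAt g (g' z) z := by
    refine hasFDerivAt_of_tendstoUniformlyOnFilter (f := f)
      (f' := fun m y => fderiv ℂ (f m) y) (l := l) ?_ ?_ ?_
    · rw [tendstoUniformlyOn_iff_tendstoUniformlyOnFilter] at hu'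
      exact hu'.mono_right (le_principal_iff.2 (ball_mem_nhds z (by linarith)))
    · have h2 : ∀ᶠ p : ι × E in l ×ˢ 𝓝 z, DifferentiableOn ℂ (f p.1) (ball z (r / 2)) ∧
          p.2 ∈ ball z (r / 2) := hdiff.prod_mk (ball_mem_nhds z (by linarith))
      filter_upwards [h2] with p hp
      exact (hp.1.differentiableAt (isOpen_ball.mem_nhds hp.2)).hasFDerivAt
    · filter_upwards [ball_mem_nhds z hr] with y hy using hg y (hrs hy)
  exact h1.differentiableAt

end lim

theorem elim : S_ELIM.{u, v} := by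
  intro E _ _ _ F _ _ _ ι l _ f g x R M hR hf hg
  exact ⟨elim' hf hg, unif hR hf hg⟩

theorem eni : S_ENI.{u} := by
  intro E _ _ _ ι l f g x R A hR hf hfg hgA s hs
  let N : ℝ := ‖(A.symm : E →L[ℂ] E)‖ + 1
  have hN : 0 < N := by positivity
  have hAN : ‖(A.symm : E →L[ℂ] E)‖ ≤ N := by simp [N]
  let κ : ℝ := 1 / (8 * N)
  have hκ : 0 < κ := by positivity
  have h0 : ∀ᶠ y in 𝓝 x, ‖g y - g x - A (y - x)‖ ≤ κ * ‖y - x‖ :=
    hgA.isLittleO.def hκ
  obtain ⟨r0, hr0, hr0s⟩ := Metric.eventually_nhds_iff_ball.1 h0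
  let r : ℝ := min (min s R) r0
  have hr : 0 < r := lt_min (lt_min hs hR) hr0
  have hrs : r ≤ s := (min_le_left _ _).trans (min_le_left _ _)
  have hrR : r ≤ R := (min_le_left _ _).trans (min_le_right _ _)
  have hrr0 : r ≤ r0 := min_le_right _ _
  have hκr : 0 < κ * r / 2 := by positivity
  refine ⟨κ * r / 2, hκr, ?_⟩
  filter_upwards [hf, Metric.tendstoUniformlyOn_iff.1 hfg _ hκr] with m hm1 hm2
  let h : E → E := fun y => f m y - A y - (g x - A x)
  have hhd : DifferentiableOn ℂ h (ball x r) :=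
    ((hm1.mono (ball_subset_ball hrR)).sub A.differentiable.differentiableOn).sub
      (differentiableOn_const _)
  have hhb : ∀ y ∈ ball x r, ‖h y‖ ≤ 2 * κ * r := by
    intro y hy
    have e1 : ‖g y - g x - A (y - x)‖ ≤ κ * r := by
      refine (hr0s y (ball_subset_ball hrr0 hy)).trans ?_
      rw [mem_ball, dist_eq_norm] at hy
      gcongr
    have e2 : ‖f m y - g y‖ ≤ κ * r := by
      have := hm2 y (ball_subset_ball hrR hy)
      rw [dist_comm, dist_eq_norm] at this
      linarith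
    have e3 : h y = (f m y - g y) + (g y - g x - A (y - x)) := by
      simp only [h, map_sub]; abel
    rw [e3]
    refine (norm_add_le _ _).trans ?_
    linarith
  obtain ⟨hc1, hc2⟩ := cauchy E E h x r (2 * κ * r) hr hhd hhb
  have e4 : 2 * (2 * κ * r) / r = 4 * κ := by field_simp; ring
  rw [e4] at hc1 hc2
  have h4κ : 0 ≤ 4 * κ := by positivity
  have happ : ApproximatesLinearOn (f m) (A : E →L[ℂ] E) (ball x (r / 2)) ⟨4 * κ, h4κ⟩ := by
    intro y hy z hz
    have := hc2 y hy z hz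
    have e5 : h y - h z = f m y - f m z - (A : E →L[ℂ] E) (y - z) := by
      simp only [h, map_sub, ContinuousLinearEquiv.coe_coe]; abel
    rw [e5] at this
    exact this
  have : CompleteSpace E := FiniteDimensional.complete ℂ E
  let B : ContinuousLinearMap.NonlinearRightInverse (A : E →L[ℂ] E) :=
    { toFun := A.symm
      nnnorm := ⟨N, hN.le⟩
      bound' := fun y => ((A.symm : E →L[ℂ] E).le_opNorm y).trans
        (mul_le_mul_of_nonneg_right hAN (norm_nonneg _))
      right_inv' := fun y => A.apply_symm_apply y }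
  have hsurj := happ.surjOn_closedBall_of_nonlinearRightInverse B (ε := r / 4) (b := x)
    (by positivity) (closedBall_subset_ball (by linarith))
  have e6 : ((B.nnnorm : ℝ)⁻¹ - ((⟨4 * κ, h4κ⟩ : NNReal) : ℝ)) * (r / 4) = κ * r := by
    change (N⁻¹ - 4 * κ) * (r / 4) = κ * r
    simp only [κ]
    field_simp
    ring
  have hsurj' : SurjOn (f m) (closedBall x (r / 4)) (closedBall (f m x) (κ * r)) := by
    rw [← e6]; exact hsurj
  intro y hy
  have hy2 : y ∈ closedBall (f m x) (κ * r) := by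
    have e7 := hm2 x (mem_ball_self hR)
    rw [mem_ball] at hy
    rw [mem_closedBall]
    calc dist y (f m x) ≤ dist y (g x) + dist (g x) (f m x) := dist_triangle _ _ _
      _ ≤ κ * r := by linarith
  obtain ⟨z, hz, hzy⟩ := hsurj' hy2
  have hzr : z ∈ ball x (r / 2) := closedBall_subset_ball (by linarith) hz
  have hzr' : z ∈ ball x r := ball_subset_ball (by linarith) hzr
  have hzR : z ∈ ball x R := ball_subset_ball hrR hzr'
  refine ⟨z, ball_subset_ball hrs hzr', hzR, hzy, ?_⟩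
  have hfd : DifferentiableAt ℂ (f m) z := hm1.differentiableAt (isOpen_ball.mem_nhds hzR)
  have hD : fderiv ℂ h z = fderiv ℂ (f m) z - (A : E →L[ℂ] E) := by
    have e8 : HasFDerivAt h (fderiv ℂ (f m) z - (A : E →L[ℂ] E)) z :=
      (hfd.hasFDerivAt.sub (A : E →L[ℂ] E).hasFDerivAt).sub_const _
    exact e8.fderiv
  have hDn : ‖fderiv ℂ (f m) z - (A : E →L[ℂ] E)‖ ≤ 4 * κ := by
    rw [← hD]; exact hc1 z hzr
  have hinj : Function.Injective (fderiv ℂ (f m) z) := by
    rw [injective_iff_map_eq_zero]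
    intro v hv
    have e9 : (fderiv ℂ (f m) z - (A : E →L[ℂ] E)) v = -(A v) := by
      simp [hv]
    have e10 : ‖A v‖ ≤ 4 * κ * ‖v‖ := by
      rw [← norm_neg, ← e9]
      exact (ContinuousLinearMap.le_opNorm _ _).trans (by gcongr)
    have e11 : ‖v‖ ≤ N * ‖A v‖ := by
      calc ‖v‖ = ‖(A.symm : E →L[ℂ] E) (A v)‖ := by simp
        _ ≤ ‖(A.symm : E →L[ℂ] E)‖ * ‖A v‖ := ContinuousLinearMap.le_opNorm _ _
        _ ≤ N * ‖A v‖ := by gcongr
    have e12 : ‖v‖ ≤ ‖v‖ / 2 := by
      calc ‖v‖ ≤ N * ‖A v‖ := e11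
        _ ≤ N * (4 * κ * ‖v‖) := by gcongr
        _ = ‖v‖ / 2 := by simp only [κ]; field_simp; ring
    have : ‖v‖ = 0 := by linarith [norm_nonneg v]
    exact norm_eq_zero.1 this
  exact ⟨hinj, (LinearMap.injective_iff_surjective
    (f := (fderiv ℂ (f m) z).toLinearMap)).1 hinj⟩

end Pool.Agent.H559.NT
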