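import Pool.Agent.H559.NT.Idd

/-!
# Project NT: maps in charts
-/

set_option autoImplicit false

open Set Filter Topology Metric
open scoped Manifold

namespace Pool.Agent.H559.NT

universe u v

variable {E : Type u} [NormedAddCommGroup E] [NormedSpace ℂ E]
  {X : Type v} [TopologicalSpace X] [ChartedSpace E X]

/-- `F` in the charts at `a` and `b`. -/
def loc (E : Type u) [NormedAddCommGroup E] [NormedSpace ℂ E]
    {X : Type v} [TopologicalSpace X] [ChartedSpace E X] (F : X → X) (a b : X) : E → E :=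
  fun z => chartAt E b (F ((chartAt E a).symm z))

variable [IsManifold 𝓘(ℂ, E) 1 X]

theorem chart_bij (a : X) {x : X} (hx : x ∈ (chartAt E a).source) :
    MDifferentiableAt 𝓘(ℂ, E) 𝓘(ℂ, E) (chartAt E a) x ∧
      Function.Bijective (mfderiv 𝓘(ℂ, E) 𝓘(ℂ, E) (chartAt E a) x) :=
  ⟨(mdifferentiable_chart a).mdifferentiableAt hx, (mdifferentiable_chart a).mfderiv_bijective hx⟩

theorem chart_symm_bij (a : X) {z : E} (hz : z ∈ (chartAt E a).target) :
    MDifferentiableAt 𝓘(ℂ, E) 𝓘(ℂ, E) (chartAt E a).symm z ∧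
      Function.Bijective (mfderiv 𝓘(ℂ, E) 𝓘(ℂ, E) (chartAt E a).symm z) :=
  ⟨(mdifferentiable_chart a).symm.mdifferentiableAt hz,
    (mdifferentiable_chart a).symm.mfderiv_bijective hz⟩

/-- A map that is holomorphic at a point is holomorphic in charts, and the differentials are
simultaneously bijective. -/
theorem loc_diff {F : X → X} {a b : X} {z : E} (hz : z ∈ (chartAt E a).target)
    (hF : MDifferentiableAt 𝓘(ℂ, E) 𝓘(ℂ, E) F ((chartAt E a).symm z))
    (hb : F ((chartAt E a).symm z) ∈ (chartAt E b).source) :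
    DifferentiableAt ℂ (loc E F a b) z ∧
      (Function.Bijective (fderiv ℂ (loc E F a b) z) ↔
        Function.Bijective (mfderiv 𝓘(ℂ, E) 𝓘(ℂ, E) F ((chartAt E a).symm z))) := by
  obtain ⟨h1, h2⟩ := chart_symm_bij a hz
  obtain ⟨h3, h4⟩ := chart_bij b hb
  have h5 : MDifferentiableAt 𝓘(ℂ, E) 𝓘(ℂ, E) (F ∘ (chartAt E a).symm) z :=
    MDifferentiableAt.comp z hF h1
  have h6 : MDifferentiableAt 𝓘(ℂ, E) 𝓘(ℂ, E) (chartAt E b ∘ (F ∘ (chartAt E a).symm)) z :=
    MDifferentiableAt.comp z h3 h5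
  have h7 : mfderiv 𝓘(ℂ, E) 𝓘(ℂ, E) (chartAt E b ∘ (F ∘ (chartAt E a).symm)) z =
      (mfderiv 𝓘(ℂ, E) 𝓘(ℂ, E) (chartAt E b) (F ((chartAt E a).symm z))).comp
        ((mfderiv 𝓘(ℂ, E) 𝓘(ℂ, E) F ((chartAt E a).symm z)).comp
          (mfderiv 𝓘(ℂ, E) 𝓘(ℂ, E) (chartAt E a).symm z)) := by
    rw [mfderiv_comp z h3 h5, mfderiv_comp z hF h1]
    rfl
  refine ⟨mdifferentiableAt_iff_differentiableAt.1 h6, ?_⟩
  have h8 : fderiv ℂ (loc E F a b) z =
      mfderiv 𝓘(ℂ, E) 𝓘(ℂ, E) (chartAt E b ∘ (F ∘ (chartAt E a).symm)) z :=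
    mfderiv_eq_fderiv.symm
  have h9 : (fderiv ℂ (loc E F a b) z : E → E) =
      (mfderiv 𝓘(ℂ, E) 𝓘(ℂ, E) (chartAt E b) (F ((chartAt E a).symm z))) ∘
        ((mfderiv 𝓘(ℂ, E) 𝓘(ℂ, E) F ((chartAt E a).symm z)) ∘
          (mfderiv 𝓘(ℂ, E) 𝓘(ℂ, E) (chartAt E a).symm z)) := by
    rw [h8, h7]; rfl
  constructor
  · intro h10
    have h11 : Function.Bijective
        ((mfderiv 𝓘(ℂ, E) 𝓘(ℂ, E) (chartAt E b) (F ((chartAt E a).symm z))) ∘
        ((mfderiv 𝓘(ℂ, E) 𝓘(ℂ, E) F ((chartAt E a).symm z)) ∘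
          (mfderiv 𝓘(ℂ, E) 𝓘(ℂ, E) (chartAt E a).symm z))) := by
      rw [← h9]; exact h10
    have h12 := (Function.Bijective.of_comp_iff' h4 _).1 h11
    exact (Function.Bijective.of_comp_iff _ h2).1 h12
  · intro h10
    have h11 := h4.comp (h10.comp h2)
    rw [← h9] at h11
    exact h11

/-- Back from charts to the manifold. -/
theorem mdiff_of_loc {F : X → X} {a b : X} {x : X} (hx : x ∈ (chartAt E a).source)
    (hb : ∀ᶠ y in 𝓝 x, F y ∈ (chartAt E b).source)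
    (hF : DifferentiableAt ℂ (loc E F a b) (chartAt E a x)) :
    MDifferentiableAt 𝓘(ℂ, E) 𝓘(ℂ, E) F x := by
  have h1 : MDifferentiableAt 𝓘(ℂ, E) 𝓘(ℂ, E) (loc E F a b) (chartAt E a x) :=
    mdifferentiableAt_iff_differentiableAt.2 hF
  have h2 : MDifferentiableAt 𝓘(ℂ, E) 𝓘(ℂ, E) (loc E F a b ∘ chartAt E a) x :=
    MDifferentiableAt.comp x h1 (chart_bij a hx).1
  have hFx : F x ∈ (chartAt E b).source := hb.self_of_nhds
  have h3 : (loc E F a b ∘ chartAt E a) x = chartAt E b (F x) := by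
    simp only [loc, Function.comp_apply, (chartAt E a).left_inv hx]
  have h4 : MDifferentiableAt 𝓘(ℂ, E) 𝓘(ℂ, E)
      ((chartAt E b).symm ∘ (loc E F a b ∘ chartAt E a)) x := by
    refine MDifferentiableAt.comp x ?_ h2
    rw [h3]
    exact (chart_symm_bij b ((chartAt E b).map_source hFx)).1
  refine h4.congr_of_eventuallyEq ?_
  filter_upwards [hb, (chartAt E a).open_source.mem_nhds hx] with y hy hya
  simp only [loc, Function.comp_apply, (chartAt E a).left_inv hya, (chartAt E b).left_inv hy]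

/-- Small balls around `chartAt E a x` are mapped into any neighbourhood of `x`. -/
theorem exists_ball (a : X) {x : X} (hx : x ∈ (chartAt E a).source) {W : Set X} (hW : W ∈ 𝓝 x) :
    ∃ R : ℝ, 0 < R ∧ ball (chartAt E a x) R ⊆ (chartAt E a).target ∧
      ∀ z ∈ ball (chartAt E a x) R, (chartAt E a).symm z ∈ W := by
  have h1 : (chartAt E a).target ∈ 𝓝 (chartAt E a x) :=
    (chartAt E a).open_target.mem_nhds ((chartAt E a).map_source hx)
  have h2 : (chartAt E a).symm ⁻¹' W ∈ 𝓝 (chartAt E a x) := by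
    have h3 := (chartAt E a).continuousAt_symm ((chartAt E a).map_source hx)
    refine h3.preimage_mem_nhds ?_
    rw [(chartAt E a).left_inv hx]
    exact hW
  obtain ⟨R, hR, hRs⟩ := Metric.mem_nhds_iff.1 (inter_mem h1 h2)
  exact ⟨R, hR, fun z hz => (hRs hz).1, fun z hz => (hRs hz).2⟩

end Pool.Agent.H559.NT
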