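import Pool.Agent.H559.NT.Stm

/-!
# Project NT: the diagonal argument
-/

set_option autoImplicit false

open Set Filter Topology Metric

namespace Pool.Agent.H559.NT

universe u

theorem diag : S_DIAG.{u} := by
  classical
  intro X K P V hmono hex hne hV htame
  by_contra hcon
  push Not at hcon
  choose i D hDf hDk hbad using hcon
  have hx : ∀ n, ∃ x, x ∉ K n := fun n => by
    by_contra h
    push Not at h
    exact hne n (eq_univ_of_forall h)
  choose x hx using hx
  let D' : Set X := range x ∪ ⋃ k, D k
  have hfin : ∀ n, (D' ∩ K n).Finite := by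
    intro n
    refine Set.Finite.subset (s := (x '' (Finset.range n : Set ℕ)) ∪
      ⋃ k ∈ Finset.range n, (D k ∩ K n)) ?_ ?_
    · refine Set.Finite.union ((Finset.finite_toSet _).image _) ?_
      exact Set.Finite.biUnion (Finset.finite_toSet _) fun k _ => hDf k n
    · rintro z ⟨hz | hz, hzn⟩
      · left
        obtain ⟨m, rfl⟩ := hz
        refine ⟨m, ?_, rfl⟩
        rw [Finset.coe_range, mem_Iio]
        by_contra h
        push Not at h
        exact hx m (hmono n m h hzn)
      · right
        obtain ⟨k, hk⟩ := mem_iUnion.1 hz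
        simp only [mem_iUnion, Finset.mem_range]
        refine ⟨k, ?_, hk, hzn⟩
        by_contra h
        push Not at h
        exact Set.disjoint_left.1 (hDk k) hk (hmono n k h hzn)
  have hinf : D'.Infinite := by
    intro hf
    have h1 : (range x).Finite := hf.subset subset_union_left
    have h2 : ∃ N, range x ⊆ K N := by
      choose N hN using hex
      obtain ⟨M, hM⟩ := (h1.image N).bddAbove
      exact ⟨M, fun z hz => hmono _ _ (hM ⟨z, hz, rfl⟩) (hN z)⟩
    obtain ⟨N, hN⟩ := h2
    exact hx N (hN ⟨N, rfl⟩)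
  let N : X → ℕ := fun z => Nat.find (hex z)
  let ζ : X → ℕ := fun z => (Finset.range (N z)).sup i
  obtain ⟨φ, hφ, hφD⟩ := htame D' hinf hfin ζ
  obtain ⟨k, hk⟩ := hV φ hφ
  obtain ⟨z, hz, hzk⟩ := hbad k φ hφ hk
  refine hφD z (Or.inr (mem_iUnion.2 ⟨k, hz⟩)) (hmono _ _ ?_ hzk)
  have h1 : k < N z := by
    by_contra h
    push Not at h
    exact Set.disjoint_left.1 (hDk k) hz (hmono _ _ h (Nat.find_spec (hex z)))
  exact Finset.le_sup (f := i) (Finset.mem_range.2 h1)

end Pool.Agent.H559.NT
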