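import Pool.Agent.H559.NT.Stm

/-!
# Project NT: exhaustion function and exhaustion by connected open sets
-/

set_option autoImplicit false

open Set Filter Topology Metric

namespace Pool.Agent.H559.NT

universe u

theorem exists_proper (X : Type u) [TopologicalSpace X] [T2Space X] [LocallyCompactSpace X]
    [SigmaCompactSpace X] :
    ∃ ρ : X → ℝ, Continuous ρ ∧ (∀ x, 0 ≤ ρ x) ∧ ∀ r, IsCompact {x | ρ x ≤ r} := by
  classical
  let K : CompactExhaustion X := default
  have h1 : ∀ n, ∃ f : C(X, ℝ), EqOn f 0 (K n) ∧ EqOn f 1 (interior (K (n + 1)))ᶜ ∧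
      ∀ x, f x ∈ Icc (0 : ℝ) 1 := by
    intro n
    refine exists_continuous_zero_one_of_isCompact (K.isCompact n)
      isOpen_interior.isClosed_compl ?_
    rw [disjoint_compl_right_iff_subset]
    exact K.subset_interior_succ n
  choose f hf0 hf1 hf using h1
  have hzero : ∀ n m x, x ∈ K m → m ≤ n → f n x = 0 := fun n m x hx hmn =>
    hf0 n (K.subset hmn hx)
  let ρ : X → ℝ := fun x => ∑ᶠ n, f n x
  have hsum : ∀ m x, x ∈ K m → ρ x = ∑ n ∈ Finset.range m, f n x := by
    intro m x hx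
    refine finsum_eq_sum_of_support_subset _ ?_
    intro n hn
    rw [Finset.coe_range, mem_Iio]
    by_contra h
    push Not at h
    exact hn (hzero n m x hx h)
  have hcont : Continuous ρ := by
    refine continuous_finsum (fun n => (f n).continuous) ?_
    intro x
    obtain ⟨m, hm⟩ := mem_iUnion.1 ((K.iUnion_eq ▸ mem_univ x : x ∈ ⋃ n, K n))
    refine ⟨K (m + 1), mem_interior_iff_mem_nhds.1 (K.subset_interior_succ m hm), ?_⟩
    refine (Finset.finite_toSet (Finset.range (m + 1))).subset ?_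
    rintro n ⟨z, hz, hzK⟩
    rw [Finset.coe_range, mem_Iio]
    by_contra h
    push Not at h
    exact hz (hzero n (m + 1) z hzK h)
  refine ⟨ρ, hcont, fun x => finsum_nonneg fun n => (hf n x).1, fun r => ?_⟩
  obtain ⟨m, hm⟩ := exists_nat_gt r
  refine (K.isCompact (m + 1)).of_isClosed_subset (isClosed_le hcont continuous_const) ?_
  intro x hx
  by_contra hxm
  obtain ⟨M, hM⟩ := mem_iUnion.1 ((K.iUnion_eq ▸ mem_univ x : x ∈ ⋃ n, K n))
  have hmM : m + 1 ≤ M := by
    by_contra h
    push Not at h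
    exact hxm (K.subset h.le hM)
  have h2 : ρ x = ∑ n ∈ Finset.range M, f n x := hsum M x hM
  have h3 : ∑ n ∈ Finset.range (m + 1), f n x ≤ ∑ n ∈ Finset.range M, f n x :=
    Finset.sum_le_sum_of_subset_of_nonneg (Finset.range_mono hmM)
      fun n _ _ => (hf n x).1
  have h4 : ∑ n ∈ Finset.range (m + 1), f n x = ∑ n ∈ Finset.range (m + 1), (1 : ℝ) := by
    refine Finset.sum_congr rfl fun n hn => ?_
    refine hf1 n fun h => hxm ?_
    exact K.subset (Nat.succ_le_of_lt (Finset.mem_range.1 hn)) (interior_subset h)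
  have h5 : ρ x ≤ r := hx
  simp at h4
  linarith

theorem exh : S_EXH.{u} := by
  intro X _ _ _ _ _ _
  obtain ⟨ρ, hρc, hρ0, hρK⟩ := exists_proper X
  have hne : Nonempty X := inferInstance
  obtain ⟨p⟩ := hne
  have hopen : ∀ a, IsOpen {x | ρ x < a} := fun a => isOpen_lt hρc continuous_const
  let Ω : ℝ → Set X := fun a => connectedComponentIn {x | ρ x < a} p
  have hΩρ : ∀ a, Ω a ⊆ {x | ρ x < a} := fun a => connectedComponentIn_subset _ _
  have hΩo : ∀ a, IsOpen (Ω a) := fun a => (hopen a).connectedComponentIn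
  have hΩc : ∀ a, IsPreconnected (Ω a) := fun a => isPreconnected_connectedComponentIn
  have hpa : ∀ a, (Ω a).Nonempty → p ∈ {x | ρ x < a} := fun a h =>
    connectedComponentIn_nonempty_iff.1 h
  have hmem : ∀ a, ρ p < a → p ∈ Ω a := fun a h => mem_connectedComponentIn h
  have hΩm : ∀ a b, a < b → closure (Ω a) ⊆ Ω b := by
    intro a b hab
    rcases (Ω a).eq_empty_or_nonempty with h | h
    · rw [h, closure_empty]; exact empty_subset _
    · have h1 : p ∈ Ω a := hmem a (hpa a h)
      refine (hΩc a).closure.subset_connectedComponentIn (subset_closure h1) ?_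
      intro x hx
      have h3 : Ω a ⊆ {x | ρ x ≤ a} := by
        intro y hy
        have h4 : ρ y < a := hΩρ a hy
        exact h4.le
      have h2 : ρ x ≤ a := closure_minimal h3 (isClosed_le hρc continuous_const) hx
      exact lt_of_le_of_lt h2 hab
  refine ⟨ρ, Ω, hρc, hρ0, hρK, hΩo, hΩc, hΩρ, hΩm, ?_⟩
  have hmono : ∀ a b, a ≤ b → Ω a ⊆ Ω b := by
    intro a b hab
    rcases hab.eq_or_lt with rfl | h
    · exact subset_rfl
    · exact subset_closure.trans (hΩm a b h)
  let U : Set X := ⋃ n : ℕ, Ω (n : ℝ)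
  have hUo : IsOpen U := isOpen_iUnion fun n => hΩo _
  have hpU : p ∈ U := by
    obtain ⟨n, hn⟩ := exists_nat_gt (ρ p)
    exact mem_iUnion.2 ⟨n, hmem _ hn⟩
  have hUc : IsClosed U := by
    rw [← closure_subset_iff_isClosed]
    intro x hx
    obtain ⟨n, hn⟩ := exists_nat_gt (max (ρ x) (ρ p))
    have hxn : ρ x < n := lt_of_le_of_lt (le_max_left _ _) hn
    have hpn : ρ p < n := lt_of_le_of_lt (le_max_right _ _) hn
    let Cx : Set X := connectedComponentIn {x | ρ x < (n : ℝ)} x
    have hCo : IsOpen Cx := (hopen _).connectedComponentIn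
    have hxC : x ∈ Cx := mem_connectedComponentIn hxn
    obtain ⟨y, hyC, hyU⟩ := mem_closure_iff.1 hx Cx hCo hxC
    obtain ⟨m, hm⟩ := mem_iUnion.1 hyU
    let N : ℕ := max m n
    have hN1 : (m : ℝ) ≤ N := by exact_mod_cast le_max_left m n
    have hN2 : (n : ℝ) ≤ N := by exact_mod_cast le_max_right m n
    have h1 : IsPreconnected (Ω (m : ℝ) ∪ Cx) :=
      (hΩc _).union y hm hyC isPreconnected_connectedComponentIn
    have h2 : Ω (m : ℝ) ∪ Cx ⊆ {x | ρ x < (N : ℝ)} := by
      rintro z (hz | hz)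
      · exact lt_of_lt_of_le (hΩρ _ hz) hN1
      · have h4 : z ∈ {x | ρ x < (n : ℝ)} := connectedComponentIn_subset _ _ hz
        exact lt_of_lt_of_le h4 hN2
    have h3 : p ∈ Ω (m : ℝ) := hmem _ (hpa _ ⟨y, hm⟩)
    exact mem_iUnion.2 ⟨N, h1.subset_connectedComponentIn (Or.inl h3) h2 (Or.inr hxC)⟩
  have hU : U = univ := IsClopen.eq_univ ⟨hUc, hUo⟩ ⟨p, hpU⟩
  intro x
  exact mem_iUnion.1 (hU ▸ mem_univ x : x ∈ U)

end Pool.Agent.H559.NT
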