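import Pool.Agent.H559.NT.RR

/-!
# Project NT: assembly on a connected component

`Y` is an open and closed subset of `X` (a connected component), the automorphisms considered are
the automorphisms of `X` that map `Y` onto `Y`.
If every infinite locally finite subset of `Y` can be moved away at any speed by them, then there
are such automorphisms that squeeze arbitrarily large compact subsets of `Y` into a fixed compact
set, with inverses that are bounded on a fixed open set. A limit of these automorphisms maps `Y`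
onto a relatively compact set which is open and closed, so `Y` is compact.
-/

set_option autoImplicit false

open Set Filter Topology Metric
open scoped Manifold

namespace Pool.Agent.H559.NT

universe u v

variable {E : Type u} [NormedAddCommGroup E] [NormedSpace ℂ E] [FiniteDimensional ℂ E]
  {X : Type v} [TopologicalSpace X] [ChartedSpace E X]

omit [ChartedSpace E X] in
/-- A compact set is contained in one member of an increasing sequence of open sets. -/
theorem compact_subset' {Y : Set X} {Ω : ℝ → Set X} (hΩo : ∀ a, IsOpen (Ω a))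
    (hΩm : ∀ a b, a < b → closure (Ω a) ⊆ Ω b) (hΩx : ∀ x ∈ Y, ∃ n : ℕ, x ∈ Ω (n : ℝ))
    {C : Set X} (hC : IsCompact C) (hCY : C ⊆ Y) : ∃ n : ℕ, C ⊆ Ω (n : ℝ) := by
  have hmono : ∀ a b, a ≤ b → Ω a ⊆ Ω b := by
    intro a b hab
    rcases hab.eq_or_lt with rfl | h
    · exact subset_rfl
    · exact subset_closure.trans (hΩm a b h)
  refine hC.elim_directed_cover (fun n : ℕ => Ω (n : ℝ)) (fun n => hΩo _) ?_ ?_
  · intro x hx
    obtain ⟨n, hn⟩ := hΩx x (hCY hx)
    exact mem_iUnion.2 ⟨n, hn⟩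
  · refine directed_of_isDirected_le fun m n hmn => hmono _ _ (by exact_mod_cast hmn)

/-- The squeezing automorphisms. -/
theorem squeeze' [IsManifold 𝓘(ℂ, E) 1 X] [T2Space X] [SecondCountableTopology X] [Nonempty X]
    (hEQ : S_EQ.{u, v}) (hLIM : S_MLIM.{u, v}) (hNI : S_MNI.{u, v}) (hDET : S_MDET.{u, v})
    (hX : NoCurve E X) {Y : Set X} {Ω : ℝ → Set X} (hΩo : ∀ a, IsOpen (Ω a))
    (hΩc : ∀ a, IsPreconnected (Ω a)) (hΩK : ∀ a, IsCompact (closure (Ω a)))
    (hΩm : ∀ a b, a < b → closure (Ω a) ⊆ Ω b) (hΩx : ∀ x ∈ Y, ∃ n : ℕ, x ∈ Ω (n : ℝ))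
    (hΩY : ∀ a, Ω a ⊆ Y)
    {V : Set X} (hV : IsOpen V) (hVne : V.Nonempty) {k : ℕ}
    (hk : ∀ i : ℕ, ∀ D : Set X, D ⊆ Y → (∀ n : ℕ, (D ∩ closure (Ω (n : ℝ))).Finite) →
      Disjoint D (closure (Ω (k : ℝ))) →
      ∃ φ : X ≃ X, IsAut E φ ∧ φ '' Y = Y ∧ MapsTo φ V (closure (Ω (k : ℝ))) ∧
        ∀ x ∈ D, φ x ∉ closure (Ω (i : ℝ))) (i : ℕ) (hi : k + 1 ≤ i) :
    ∃ H : X ≃ X, IsAut E H ∧ H '' Y = Y ∧ MapsTo H.symm V (closure (Ω (k : ℝ))) ∧
      MapsTo H (closure (Ω (i : ℝ))) (closure (Ω ((k : ℝ) + 1))) := by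
  classical
  have hmono : ∀ a b, a ≤ b → Ω a ⊆ Ω b := by
    intro a b hab
    rcases hab.eq_or_lt with rfl | h
    · exact subset_rfl
    · exact subset_closure.trans (hΩm a b h)
  have hmono' : ∀ a b, a ≤ b → closure (Ω a) ⊆ closure (Ω b) := fun a b h =>
    closure_mono (hmono a b h)
  have hclY : ∀ a, closure (Ω a) ⊆ Y := fun a =>
    (hΩm a (a + 1) (by linarith)).trans (hΩY _)
  let a : ℕ → ℝ := fun t => (i : ℝ) + 1 - 1 / ((t : ℝ) + 2)
  have ha1 : ∀ t, a t < i + 1 := by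
    intro t
    have : (0 : ℝ) < 1 / ((t : ℝ) + 2) := by positivity
    simp only [a]; linarith
  have ha0 : ∀ t, (i : ℝ) < a t := by
    intro t
    have h1 : 1 / ((t : ℝ) + 2) < 1 := by
      rw [div_lt_one (by positivity)]
      have : (0 : ℝ) ≤ t := Nat.cast_nonneg t
      linarith
    simp only [a]; linarith
  have ha2 : ∀ t, a t < a (t + 1) := by
    intro t
    have h1 : 1 / (((t + 1 : ℕ) : ℝ) + 2) < 1 / ((t : ℝ) + 2) := by
      apply one_div_lt_one_div_of_lt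
      · positivity
      · push_cast; linarith
    simp only [a]; linarith
  have hki : (k : ℝ) + 1 ≤ i := by exact_mod_cast hi
  have hS : ∀ t : ℕ, ∃ S : Finset X, (∀ e ∈ S, e ∉ closure (Ω (t : ℝ))) ∧
      ∀ H : X ≃ X, IsAut E H → MapsTo H.symm V (closure (Ω (k : ℝ))) →
      MapsTo H (Ω (a (t + 1))) (closure (Ω ((t : ℝ) + 2))) → (∀ e ∈ S, e ∉ H '' Ω (a t)) →
      MapsTo H (Ω (a t)) (closure (Ω ((t : ℝ) + 1))) := by
    intro t
    refine rr hEQ hLIM hNI hDET hX hV hVne (hΩK _) (hΩo _) (hΩc _) (hΩo _) (hΩK _)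
      (hΩm _ _ (ha2 t)) (hΩm _ _ (by linarith [ha0 (t + 1)])) (hΩK _) isClosed_closure ?_
    exact (hΩm _ _ (by linarith)).trans
      (interior_maximal subset_closure (hΩo _))
  choose S hSL hSH using hS
  let D : Set X := ⋃ t : ℕ, ⋃ _ : k ≤ t, ((S t : Set X) ∩ Y)
  have hDY : D ⊆ Y := by
    intro x hx
    simp only [D, mem_iUnion] at hx
    obtain ⟨t, _, hxt⟩ := hx
    exact hxt.2
  have hDfin : ∀ n : ℕ, (D ∩ closure (Ω (n : ℝ))).Finite := by
    intro n
    refine Set.Finite.subset (s := ⋃ t ∈ Finset.range n, (S t : Set X)) ?_ ?_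
    · exact Set.Finite.biUnion (Finset.finite_toSet _) fun t _ => Finset.finite_toSet _
    · rintro x ⟨hx, hxn⟩
      simp only [D, mem_iUnion] at hx
      obtain ⟨t, _, hxt⟩ := hx
      simp only [mem_iUnion, Finset.mem_range]
      refine ⟨t, ?_, hxt.1⟩
      by_contra hnt
      push Not at hnt
      exact hSL t x hxt.1 (hmono' _ _ (by exact_mod_cast hnt) hxn)
  have hDk : Disjoint D (closure (Ω (k : ℝ))) := by
    rw [Set.disjoint_left]
    intro x hx hxk
    simp only [D, mem_iUnion] at hx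
    obtain ⟨t, hkt, hxt⟩ := hx
    exact hSL t x hxt.1 (hmono' _ _ (by exact_mod_cast hkt) hxk)
  obtain ⟨φ, hφ, hφY, hφV, hφD⟩ := hk (i + 1) D hDY hDfin hDk
  have hφY' : φ.symm '' Y = Y := by
    conv_lhs => rw [← hφY]
    rw [← image_comp]
    simp
  have hsY : ∀ z ∈ Y, φ.symm z ∈ Y := fun z hz => by
    rw [← hφY']; exact ⟨z, hz, rfl⟩
  refine ⟨φ.symm, ⟨hφ.2, by simpa using hφ.1⟩, hφY', by simpa using hφV, ?_⟩
  have hmiss : ∀ t, k ≤ t → ∀ e ∈ S t, e ∉ φ.symm '' Ω (a t) := by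
    rintro t hkt e he ⟨z, hz, rfl⟩
    refine hφD (φ.symm z) ?_ ?_
    · simp only [D, mem_iUnion]
      exact ⟨t, hkt, he, hsY z (hΩY _ hz)⟩
    · rw [Equiv.apply_symm_apply]
      exact subset_closure (hmono _ _ (by push_cast; linarith [ha1 t]) hz)
  have hcont : Continuous φ.symm := hφ.2.continuous
  obtain ⟨N, hN⟩ := compact_subset' (Y := Y) hΩo hΩm hΩx ((hΩK ((i : ℝ) + 1)).image hcont)
    (by
      rintro _ ⟨z, hz, rfl⟩
      exact hsY z (hclY _ hz))
  have key : ∀ s : ℕ, ∀ t : ℕ, k ≤ t → N + k ≤ t + s →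
      MapsTo φ.symm (Ω (a t)) (closure (Ω ((t : ℝ) + 1))) := by
    intro s
    induction s with
    | zero =>
      intro t _ hNt z hz
      have h1 : φ.symm z ∈ Ω (N : ℝ) := hN ⟨z, subset_closure (hmono _ _ (ha1 t).le hz), rfl⟩
      refine subset_closure (hmono _ _ ?_ h1)
      have : (N : ℝ) + k ≤ t + 0 := by exact_mod_cast hNt
      have : (0 : ℝ) ≤ k := Nat.cast_nonneg k
      linarith
    | succ s ih =>
      intro t hkt hNt
      refine hSH t φ.symm ⟨hφ.2, by simpa using hφ.1⟩ (by simpa using hφV) ?_ (hmiss t hkt)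
      have := ih (t + 1) (by omega) (by omega)
      push_cast at this
      have h2 : (t : ℝ) + 1 + 1 = t + 2 := by ring
      rw [h2] at this
      exact this
  intro z hz
  have h1 := key N k le_rfl (by omega)
  exact h1 (hΩm _ _ (ha0 k) hz)

/-- A sequence of automorphisms `H i` that squeezes `Y` into a compact set, with inverses bounded
on an open set, forces `Y` to be contained in the compact set. -/
theorem subset_of_squeeze [IsManifold 𝓘(ℂ, E) 1 X] [T2Space X] [SecondCountableTopology X]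
    (hEQ : S_EQ.{u, v}) (hLIM : S_MLIM.{u, v}) (hNI : S_MNI.{u, v}) (hID : S_MID.{u, v})
    (hX : NoCurve E X) {Y : Set X} (hYo : IsOpen Y) (hYc : IsPreconnected Y)
    {Ω : ℝ → Set X} (hΩo : ∀ a, IsOpen (Ω a))
    (hΩK : ∀ a, IsCompact (closure (Ω a)))
    (hΩm : ∀ a b, a < b → closure (Ω a) ⊆ Ω b) (hΩx : ∀ x ∈ Y, ∃ n : ℕ, x ∈ Ω (n : ℝ))
    (hΩY : ∀ a, Ω a ⊆ Y)
    {V : Set X} (hV : IsOpen V) (hVne : V.Nonempty) (hVY : V ⊆ Y) {k : ℕ} {B : Set X}
    (hB : IsCompact B)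
    (H : ℕ → X ≃ X) (hH : ∀ i, IsAut E (H i)) (hHY : ∀ i, H i '' Y = Y)
    (hHV : ∀ i, MapsTo (H i).symm V (closure (Ω (k : ℝ))))
    (hHB : ∀ i : ℕ, k + 1 ≤ i → MapsTo (H i) (closure (Ω (i : ℝ))) B) :
    Y ⊆ B := by
  classical
  have hmono : ∀ a b, a ≤ b → Ω a ⊆ Ω b := by
    intro a b hab
    rcases hab.eq_or_lt with rfl | h
    · exact subset_rfl
    · exact subset_closure.trans (hΩm a b h)
  have hclY : ∀ a, closure (Ω a) ⊆ Y := fun a =>
    (hΩm a (a + 1) (by linarith)).trans (hΩY _)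
  have hsY : ∀ m, ∀ z ∈ Y, (H m).symm z ∈ Y := by
    intro m z hz
    rw [← hHY m] at hz
    obtain ⟨w, hw, rfl⟩ := hz
    simpa using hw
  let l : Ultrafilter ℕ := hyperfilter ℕ
  have hl : (l : Filter ℕ) ≤ atTop := by
    rw [← Nat.cofinite_eq_atTop]; exact hyperfilter_le_cofinite
  have hlt : ∀ n : ℕ, ∀ᶠ m in (l : Filter ℕ), n ≤ m := fun n => hl (eventually_ge_atTop n)
  -- the limit on every `Ω n`
  have hlim : ∀ n : ℕ, ∃ G : X → X, MapsTo G (Ω (n : ℝ)) B ∧
      Conv (l : Filter ℕ) (Ω (n : ℝ)) (fun m => H m) G := by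
    intro n
    refine hEQ E X hX l (Ω (n : ℝ)) B (hΩo _) hB (fun m => H m) ?_
    filter_upwards [hlt n, hlt (k + 1)] with m h1 h2
    refine ⟨(hH m).1.mdifferentiableOn, fun z hz => hHB m h2 ?_⟩
    exact subset_closure (hmono _ _ (by exact_mod_cast h1) hz)
  have hlimx : ∀ x ∈ Y, ∃ y ∈ B, Tendsto (fun m => H m x) l (𝓝 y) := by
    intro x hx
    obtain ⟨n, hn⟩ := hΩx x hx
    obtain ⟨G, hGB, hG⟩ := hlim n
    exact ⟨G x, hGB hn, conv_tendsto hG hn tendsto_const_nhds⟩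
  choose! G hGB hGt using hlimx
  have hG : Conv (l : Filter ℕ) Y (fun m => H m) G := by
    intro x hx O hO
    obtain ⟨n, hn⟩ := hΩx x hx
    obtain ⟨G', -, hG'⟩ := hlim n
    have h1 : G x = G' x :=
      tendsto_nhds_unique (hGt x hx) (conv_tendsto hG' hn tendsto_const_nhds)
    rw [h1] at hO
    exact hG' x hn O hO
  have hGhol : Hol E Y G := hLIM E X l Y (fun m => H m) G hYo
    (Eventually.of_forall fun m => (hH m).1.mdifferentiableOn) hG
  have hGd : ∀ z ∈ Y, MDifferentiableAt 𝓘(ℂ, E) 𝓘(ℂ, E) G z := fun z hz =>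
    hGhol.mdifferentiableAt (hYo.mem_nhds hz)
  have hcomp : ∀ (Q : Set X), Q ⊆ Y → ∀ m, Hol E Q (G ∘ (H m).symm) := by
    intro Q hQ m z hz
    exact (MDifferentiableAt.comp z (hGd _ (hsY m z (hQ hz)))
      ((hH m).2 z)).mdifferentiableWithinAt
  -- the set where the inverses are bounded
  let A : Set X := {q | ∃ n : ℕ, ∃ O ∈ 𝓝 q, ∀ᶠ m in (l : Filter ℕ),
    MapsTo (H m).symm O (closure (Ω (n : ℝ)))}
  have hA : ∀ q ∈ A, ∃ z ∈ Y, Tendsto (fun m => (H m).symm q) l (𝓝 z) ∧ G z = q := by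
    rintro q ⟨n, O, hO, hev⟩
    have h1 : ∀ᶠ m in (l : Filter ℕ), (H m).symm q ∈ closure (Ω (n : ℝ)) :=
      hev.mono fun m h => h (mem_of_mem_nhds hO)
    obtain ⟨z, hz, hzl⟩ := (hΩK (n : ℝ)).ultrafilter_le_nhds (l.map fun m => (H m).symm q) (by
      rw [Ultrafilter.coe_map, le_principal_iff, mem_map]
      exact h1)
    have hzl' : Tendsto (fun m => (H m).symm q) l (𝓝 z) := hzl
    refine ⟨z, hclY _ hz, hzl', ?_⟩
    have h2 := conv_tendsto hG (hclY _ hz) hzl'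
    simp only [Equiv.apply_symm_apply] at h2
    exact tendsto_nhds_unique h2 tendsto_const_nhds
  have hAopen : IsOpen A := by
    rw [isOpen_iff_mem_nhds]
    rintro q ⟨n, O, hO, hev⟩
    filter_upwards [eventually_mem_nhds_iff.2 hO] with q' hq'
    exact ⟨n, O, hq', hev⟩
  have hVA : V ⊆ A := fun v hv =>
    ⟨k, V, hV.mem_nhds hv, Eventually.of_forall fun m => hHV m⟩
  have hAclosed : closure A ∩ Y ⊆ A := by
    rintro q ⟨hq, hqY⟩
    -- a connected neighbourhood of `q` inside `Y`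
    have : LocallyConnectedSpace X := ChartedSpace.locallyConnectedSpace E X
    obtain ⟨Q, ⟨hQo, hqQ, hQc⟩, hQY⟩ :=
      (locallyConnectedSpace_iff_hasBasis_isOpen_isConnected.1 ‹_› q).mem_iff.1
        (hYo.mem_nhds hqY)
    simp only [id] at hQY
    obtain ⟨Φ, hΦB, hΦ⟩ := hEQ E X hX l Q B hQo hB (fun m => G ∘ (H m).symm)
      (Eventually.of_forall fun m => ⟨hcomp Q hQY m,
        fun z hz => hGB _ (hsY m z (hQY hz))⟩)
    have hΦhol : Hol E Q Φ := hLIM E X l Q (fun m => G ∘ (H m).symm) Φ hQo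
      (Eventually.of_forall fun m => hcomp Q hQY m) hΦ
    have hid : ∀ z ∈ Q, Φ z = id z := by
      refine hID E X Q (Q ∩ A) Φ id hQo hQc.isPreconnected (hQo.inter hAopen)
        (mem_closure_iff.1 hq Q hQo hqQ) inter_subset_left hΦhol mdifferentiableOn_id ?_
      rintro z ⟨hzQ, hzA⟩
      obtain ⟨w, hwY, hw, hGw⟩ := hA z hzA
      have h1 : Tendsto (fun m => G ((H m).symm z)) l (𝓝 (G w)) :=
        ((hGd w hwY).continuousAt.tendsto).comp hw
      have h2 : Tendsto (fun m => G ((H m).symm z)) l (𝓝 (Φ z)) :=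
        conv_tendsto hΦ hzQ tendsto_const_nhds
      rw [tendsto_nhds_unique h2 h1, hGw]; rfl
    have hinvq : Inv E Φ q := by
      have h1 : ∀ᶠ z in 𝓝 q, Φ (id z) = z := by
        filter_upwards [hQo.mem_nhds hqQ] with z hz using hid z hz
      exact inv_of_comp (ψ := id) (hΦhol.mdifferentiableAt (hQo.mem_nhds hqQ))
        mdifferentiableAt_id h1
    obtain ⟨O, hO, hOev⟩ := hNI E X l Q (fun m => G ∘ (H m).symm) Φ hQo
      (Eventually.of_forall fun m => hcomp Q hQY m) hΦ q hqQ hinvq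
      Q (hQo.mem_nhds hqQ)
    have hqO : q ∈ O := by
      have := mem_of_mem_nhds hO
      rwa [hid q hqQ] at this
    obtain ⟨m, hm⟩ := hOev.exists
    obtain ⟨b, hbQ, hb, hbinv⟩ := hm q hqO
    have hbY : (H m).symm b ∈ Y := hsY m b (hQY hbQ)
    -- `G` has invertible differential at `z0 = (H m).symm b`, and `G z0 = q`
    have hGinv : Inv E G ((H m).symm b) := by
      refine ⟨hGd _ hbY, ?_⟩
      have h1 : mfderiv 𝓘(ℂ, E) 𝓘(ℂ, E) (G ∘ (H m).symm) b =
          (mfderiv 𝓘(ℂ, E) 𝓘(ℂ, E) G ((H m).symm b)).comp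
            (mfderiv 𝓘(ℂ, E) 𝓘(ℂ, E) (H m).symm b) := mfderiv_comp b (hGd _ hbY) ((hH m).2 b)
      have h2 : Function.Surjective (mfderiv 𝓘(ℂ, E) 𝓘(ℂ, E) G ((H m).symm b)) := by
        intro w
        obtain ⟨v, hv⟩ := hbinv.2.2 w
        refine ⟨mfderiv 𝓘(ℂ, E) 𝓘(ℂ, E) (H m).symm b v, ?_⟩
        rw [← hv]
        exact (DFunLike.congr_fun h1 v).symm
      let L : E →ₗ[ℂ] E := (mfderiv 𝓘(ℂ, E) 𝓘(ℂ, E) G ((H m).symm b)).toLinearMap
      have h4 : Function.Surjective L := h2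
      exact ⟨(LinearMap.injective_iff_surjective (f := L)).2 h4, h2⟩
    obtain ⟨n, hn⟩ := hΩx ((H m).symm b) hbY
    obtain ⟨O2, hO2, hO2ev⟩ := hNI E X l Y (fun m => H m) G hYo
      (Eventually.of_forall fun m => (hH m).1.mdifferentiableOn) hG ((H m).symm b)
      hbY hGinv (Ω (n : ℝ)) ((hΩo _).mem_nhds hn)
    have hGq : G ((H m).symm b) = q := hb
    rw [hGq] at hO2
    refine ⟨n, O2, hO2, ?_⟩
    filter_upwards [hO2ev] with m' hm' o ho
    obtain ⟨z, hz, hzo, -⟩ := hm' o ho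
    rw [← hzo, Equiv.symm_apply_apply]
    exact subset_closure hz
  have hYA : Y ⊆ A := by
    refine hYc.subset_of_closure_inter_subset hAopen ?_ hAclosed
    obtain ⟨v, hv⟩ := hVne
    exact ⟨v, hVY hv, hVA hv⟩
  intro q hq
  obtain ⟨z, hzY, -, hz⟩ := hA q (hYA hq)
  rw [← hz]
  exact hGB z hzY

end Pool.Agent.H559.NT
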