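import Pool.Agent.H559.NT.Ana

/-!
# Project NT: identity theorem and degenerate differentials in `E`
-/

set_option autoImplicit false

open Set Filter Topology Metric

namespace Pool.Agent.H559.NT

universe u v

section

variable {E : Type u} [NormedAddCommGroup E] [NormedSpace ℂ E]
  {F : Type v} [NormedAddCommGroup F] [NormedSpace ℂ F] [CompleteSpace F]

/-- The set of parameters `s` with `a + s • w` in the ball. -/
def Par (x : E) (R : ℝ) (a w : E) : Set ℂ := {s | a + s • w ∈ ball x R}

theorem par_open (x : E) (R : ℝ) (a w : E) : IsOpen (Par x R a w) := by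
  have h : Continuous fun s : ℂ => a + s • w := by fun_prop
  exact isOpen_ball.preimage h

theorem par_convex (x : E) (R : ℝ) (a w : E) : Convex ℝ (Par x R a w) := by
  intro s hs t ht α β hα hβ hαβ
  have h1 := convex_ball x R hs ht hα hβ hαβ
  have h2 : a + (α • s + β • t) • w = α • (a + s • w) + β • (a + t • w) := by
    have h3 : a = (α + β) • a := by rw [hαβ, one_smul]
    rw [add_smul, smul_assoc, smul_assoc]
    nth_rewrite 1 [h3]
    rw [add_smul, smul_add, smul_add]
    abel
  change a + (α • s + β • t) • w ∈ ball x R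
  rw [h2]
  exact h1

theorem eq_zero_of_par {h : ℂ → F} {x : E} {R : ℝ} {a w : E} (ha : a ∈ ball x R)
    (hw : a + w ∈ ball x R) (hh : DifferentiableOn ℂ h (Par x R a w))
    (h0 : ∀ᶠ s in 𝓝 (0 : ℂ), h s = 0) : h 1 = 0 := by
  have h1 : AnalyticOnNhd ℂ h (Par x R a w) := hh.analyticOnNhd (par_open x R a w)
  have h2 := h1.eqOn_zero_of_preconnected_of_eventuallyEq_zero
    (par_convex x R a w).isPreconnected (z₀ := 0) (by simpa [Par] using ha) h0
  exact h2 (by simpa [Par] using hw)

end

theorem eid : S_EID.{u, v} := by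
  intro E _ _ F _ _ _ f x R hf O hO hOne hOx hf0 z hz
  obtain ⟨a, ha⟩ := hOne
  have hc : Continuous fun s : ℂ => a + s • (z - a) := by fun_prop
  have h1 : (fun s : ℂ => f (a + s • (z - a))) 1 = 0 := by
    refine eq_zero_of_par (F := F) (h := fun s : ℂ => f (a + s • (z - a))) (x := x) (R := R) (a := a) (w := z - a) (hOx ha) (by simpa using hz)
      ?_ ?_
    · exact hf.comp (by fun_prop) fun s hs => hs
    · have h2 : ∀ᶠ s in 𝓝 (0 : ℂ), a + s • (z - a) ∈ O :=
        hc.continuousAt.eventually_mem (by simpa using hO.mem_nhds ha)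
      exact h2.mono fun s hs => hf0 _ hs
  simpa using h1

section

variable {E : Type u} [NormedAddCommGroup E] [NormedSpace ℂ E]
  {F : Type v} [NormedAddCommGroup F] [NormedSpace ℂ F] [CompleteSpace F]

/-- The differential depends holomorphically on the point (along lines). -/
theorem deriv_hol {f : E → F} {x : E} {R : ℝ} (hf : DifferentiableOn ℂ f (ball x R)) (a w v : E) :
    DifferentiableOn ℂ (fun s : ℂ => fderiv ℂ f (a + s • w) v) (Par x R a w) := by
  intro s0 hs0
  refine DifferentiableAt.differentiableWithinAt ?_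
  let y0 : E := a + s0 • w
  have hy0 : y0 ∈ ball x R := hs0
  have hcont : ContinuousAt f y0 := (hf.differentiableAt (isOpen_ball.mem_nhds hy0)).continuousAt
  have h1 : ∀ᶠ y in 𝓝 y0, ‖f y‖ ≤ ‖f y0‖ + 1 := by
    have := hcont.norm.eventually_lt_const (show ‖f y0‖ < ‖f y0‖ + 1 by linarith)
    exact this.mono fun y hy => hy.le
  obtain ⟨r, hr, hrs⟩ := Metric.eventually_nhds_iff_ball.1
    (h1.and (isOpen_ball.eventually_mem hy0))
  have hfr : DifferentiableOn ℂ f (ball y0 r) := hf.mono fun y hy => (hrs y hy).2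
  have hlip := (cauchy E F f y0 r (‖f y0‖ + 1) hr hfr fun y hy => (hrs y hy).1).2
  set L : ℝ := 2 * (‖f y0‖ + 1) / r with hL
  let δ : ℝ := r / (4 * (‖w‖ + 1))
  have hδ : 0 < δ := by positivity
  have hδs : ∀ s ∈ ball s0 δ, a + s • w ∈ ball y0 (r / 4) := by
    intro s hs
    rw [mem_ball, dist_eq_norm] at hs ⊢
    have e1 : a + s • w - y0 = (s - s0) • w := by simp only [y0, sub_smul]; abel
    rw [e1, norm_smul]
    calc ‖s - s0‖ * ‖w‖ ≤ ‖s - s0‖ * (‖w‖ + 1) := by gcongr; linarith
      _ < δ * (‖w‖ + 1) := by gcongr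
      _ = r / 4 := by simp only [δ]; field_simp
  let l : Filter ℂ := 𝓝[≠] (0 : ℂ)
  let q : ℂ → ℂ → F := fun t s => t⁻¹ • (f (a + s • w + t • v) - f (a + s • w))
  have ht : ∀ᶠ t in l, t ≠ 0 ∧ ‖t‖ < r / (4 * (‖v‖ + 1)) := by
    refine (eventually_mem_nhdsWithin).and (Filter.Eventually.filter_mono nhdsWithin_le_nhds ?_)
    have h2 : (0 : ℝ) < r / (4 * (‖v‖ + 1)) := by positivity
    filter_upwards [ball_mem_nhds (0 : ℂ) h2] with t ht
    simpa using ht
  have hin : ∀ t : ℂ, ‖t‖ < r / (4 * (‖v‖ + 1)) → ∀ s ∈ ball s0 δ,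
      a + s • w + t • v ∈ ball y0 (r / 2) := by
    intro t ht s hs
    have e1 := hδs s hs
    rw [mem_ball] at e1 ⊢
    have e2 : dist (a + s • w + t • v) (a + s • w) ≤ r / 4 := by
      rw [dist_eq_norm, add_sub_cancel_left, norm_smul]
      calc ‖t‖ * ‖v‖ ≤ ‖t‖ * (‖v‖ + 1) := by gcongr; linarith
        _ ≤ r / (4 * (‖v‖ + 1)) * (‖v‖ + 1) := by gcongr
        _ = r / 4 := by field_simp
    calc dist (a + s • w + t • v) y0 ≤ _ + _ := dist_triangle _ (a + s • w) _
      _ < r / 2 := by linarith
  have key : DifferentiableOn ℂ (fun s : ℂ => fderiv ℂ f (a + s • w) v) (ball s0 δ) := by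
    refine elim' (E := ℂ) (l := l) (f := q) (M := L * ‖v‖) ?_ ?_
    · filter_upwards [ht] with t ht
      refine ⟨?_, ?_⟩
      · intro s hs
        refine DifferentiableAt.differentiableWithinAt ?_
        have e1 : DifferentiableAt ℂ f (a + s • w + t • v) :=
          hfr.differentiableAt (isOpen_ball.mem_nhds
            (ball_subset_ball (by linarith) (hin t ht.2 s hs)))
        have e2 : DifferentiableAt ℂ f (a + s • w) :=
          hfr.differentiableAt (isOpen_ball.mem_nhds
            (ball_subset_ball (by linarith) (hδs s hs)))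
        have e3 : DifferentiableAt ℂ (fun s : ℂ => f (a + s • w + t • v)) s :=
          e1.comp s (by fun_prop)
        have e4 : DifferentiableAt ℂ (fun s : ℂ => f (a + s • w)) s := e2.comp s (by fun_prop)
        exact (e3.sub e4).const_smul _
      · intro s hs
        have e1 := hlip _ (hin t ht.2 s hs) _ (ball_subset_ball (by linarith) (hδs s hs))
        rw [add_sub_cancel_left, norm_smul] at e1
        simp only [q]
        rw [norm_smul, norm_inv, inv_mul_le_iff₀ (norm_pos_iff.2 ht.1)]
        calc _ ≤ L * (‖t‖ * ‖v‖) := e1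
          _ = ‖t‖ * (L * ‖v‖) := by ring
    · intro s hs
      have e1 : DifferentiableAt ℂ f (a + s • w) :=
        hfr.differentiableAt (isOpen_ball.mem_nhds (ball_subset_ball (by linarith) (hδs s hs)))
      have e2 : HasFDerivAt f (fderiv ℂ f (a + s • w)) (a + s • w + (0 : ℂ) • v) := by
        rw [zero_smul, add_zero]; exact e1.hasFDerivAt
      have e3 : HasDerivAt (fun t : ℂ => a + s • w + t • v) v 0 := by
        simpa using ((hasDerivAt_id (0 : ℂ)).smul_const v).const_add (a + s • w)
      have e4 : HasDerivAt (fun t : ℂ => f (a + s • w + t • v)) (fderiv ℂ f (a + s • w) v) 0 :=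
        e2.comp_hasDerivAt (0 : ℂ) e3
      rw [hasDerivAt_iff_tendsto_slope_zero] at e4
      simpa using e4
  exact key.differentiableAt (ball_mem_nhds s0 hδ)

end

theorem bijective_iff_det {E : Type u} [NormedAddCommGroup E] [NormedSpace ℂ E]
    [FiniteDimensional ℂ E] (L : E →L[ℂ] E) :
    Function.Bijective L ↔ LinearMap.det (L : E →ₗ[ℂ] E) ≠ 0 := by
  have h1 : Function.Bijective L ↔ IsUnit (L : E →ₗ[ℂ] E) :=
    (Module.End.isUnit_iff (L : E →ₗ[ℂ] E)).symm
  rw [h1, LinearMap.isUnit_iff_isUnit_det, isUnit_iff_ne_zero]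

theorem edet : S_EDET.{u} := by
  intro E _ _ _ f x R hf O hO hOne hOx hdeg z hz
  obtain ⟨a, ha⟩ := hOne
  have : CompleteSpace E := FiniteDimensional.complete ℂ E
  let b := Module.finBasis ℂ E
  have hc : Continuous fun s : ℂ => a + s • (z - a) := by fun_prop
  have hdet : ∀ s : ℂ, LinearMap.det (fderiv ℂ f (a + s • (z - a)) : E →ₗ[ℂ] E) =
      (Matrix.of fun i j => b.repr (fderiv ℂ f (a + s • (z - a)) (b j)) i).det := by
    intro s
    rw [← LinearMap.det_toMatrix b]
    congr 1
    ext i j
    rw [LinearMap.toMatrix_apply]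
    rfl
  have h1 : (fun s : ℂ => LinearMap.det (fderiv ℂ f (a + s • (z - a)) : E →ₗ[ℂ] E)) 1 = 0 := by
    refine eq_zero_of_par (F := ℂ)
      (h := fun s : ℂ => LinearMap.det (fderiv ℂ f (a + s • (z - a)) : E →ₗ[ℂ] E)) (x := x) (R := R) (a := a) (w := z - a) (hOx ha) (by simpa using hz)
      ?_ ?_
    · simp only [hdet, Matrix.det_apply, Matrix.of_apply]
      refine DifferentiableOn.fun_sum fun σ _ => ?_
      refine DifferentiableOn.const_smul ?_ _
      refine DifferentiableOn.fun_finsetProd fun i _ => ?_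
      let c : E →L[ℂ] ℂ := LinearMap.toContinuousLinearMap (b.coord (σ i))
      exact c.differentiable.comp_differentiableOn (deriv_hol hf a (z - a) (b i))
    · have h2 : ∀ᶠ s in 𝓝 (0 : ℂ), a + s • (z - a) ∈ O :=
        hc.continuousAt.eventually_mem (by simpa using hO.mem_nhds ha)
      filter_upwards [h2] with s hs
      by_contra hne
      exact hdeg _ hs ((bijective_iff_det _).2 hne)
  rw [bijective_iff_det]
  simpa using h1

end Pool.Agent.H559.NT
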