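import Pool.Agent.H559.NT.Final2
import Pool.Agent.H559.NT.Exh
import Pool.Agent.H559.NT.Diag

/-!
# Project NT: the main theorem for all (not necessarily connected) non-compact manifolds
-/

set_option autoImplicit false

open Set Filter Topology Metric
open scoped Manifold

namespace Pool.Agent.H559.NT

universe u v

section top

variable {X : Type v} [TopologicalSpace X]

/-- An exhaustion function: continuous, nonnegative, with compact sublevel sets. -/
def IsExhaustion (ρ : X → ℝ) : Prop :=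
  Continuous ρ ∧ (∀ x, 0 ≤ ρ x) ∧ ∀ r : ℝ, 0 < r → IsCompact {x | ρ x ≤ r}

theorem not_accPt_of_finite [T1Space X] {D : Set X} {x : X} (h : ∃ N ∈ 𝓝 x, (D ∩ N).Finite) :
    ¬ AccPt x (𝓟 D) := by
  rw [accPt_iff_frequently]
  intro hf
  obtain ⟨N, hN, hfin⟩ := h
  have hfin' : ((D ∩ N) \ {x}).Finite := hfin.subset sdiff_subset
  have h1 : ((D ∩ N) \ {x})ᶜ ∈ 𝓝 x := hfin'.isClosed.isOpen_compl.mem_nhds (by simp)
  obtain ⟨y, ⟨hyx, hyD⟩, hyK, hy⟩ := (hf.and_eventually ((eventually_mem_set.2 hN).and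
    (eventually_mem_set.2 h1))).exists
  exact hy ⟨⟨hyD, hyK⟩, hyx⟩

/-- Exhaustion of a connected component by connected open sets. -/
theorem exh' [T2Space X] [LocallyCompactSpace X] [SigmaCompactSpace X] [LocallyConnectedSpace X]
    {ρ : X → ℝ} (hρc : Continuous ρ) (p : X) :
    ∃ Ω : ℝ → Set X, (∀ a, IsOpen (Ω a)) ∧ (∀ a, IsPreconnected (Ω a)) ∧
      (∀ a, Ω a ⊆ {x | ρ x < a}) ∧ (∀ a b, a < b → closure (Ω a) ⊆ Ω b) ∧
      (∀ x ∈ connectedComponent p, ∃ n : ℕ, x ∈ Ω (n : ℝ)) ∧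
      ∀ a, Ω a ⊆ connectedComponent p := by
  have hopen : ∀ a, IsOpen {x | ρ x < a} := fun a => isOpen_lt hρc continuous_const
  let Ω : ℝ → Set X := fun a => connectedComponentIn {x | ρ x < a} p
  have hΩρ : ∀ a, Ω a ⊆ {x | ρ x < a} := fun a => connectedComponentIn_subset _ _
  have hΩo : ∀ a, IsOpen (Ω a) := fun a => (hopen a).connectedComponentIn
  have hΩc : ∀ a, IsPreconnected (Ω a) := fun a => isPreconnected_connectedComponentIn
  have hpa : ∀ a, (Ω a).Nonempty → p ∈ {x | ρ x < a} := fun a h =>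
    connectedComponentIn_nonempty_iff.1 h
  have hmem : ∀ a, ρ p < a → p ∈ Ω a := fun a h => mem_connectedComponentIn h
  have hΩm : ∀ a b, a < b → closure (Ω a) ⊆ Ω b := by
    intro a b hab
    rcases (Ω a).eq_empty_or_nonempty with h | h
    · rw [h, closure_empty]; exact empty_subset _
    · have h1 : p ∈ Ω a := hmem a (hpa a h)
      refine (hΩc a).closure.subset_connectedComponentIn (subset_closure h1) ?_
      intro x hx
      have h3 : Ω a ⊆ {x | ρ x ≤ a} := by
        intro y hy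
        have h4 : ρ y < a := hΩρ a hy
        exact h4.le
      have h2 : ρ x ≤ a := closure_minimal h3 (isClosed_le hρc continuous_const) hx
      exact lt_of_le_of_lt h2 hab
  have hmono : ∀ a b, a ≤ b → Ω a ⊆ Ω b := by
    intro a b hab
    rcases hab.eq_or_lt with rfl | h
    · exact subset_rfl
    · exact subset_closure.trans (hΩm a b h)
  refine ⟨Ω, hΩo, hΩc, hΩρ, hΩm, ?_, ?_⟩
  · let U : Set X := ⋃ n : ℕ, Ω (n : ℝ)
    have hUo : IsOpen U := isOpen_iUnion fun n => hΩo _
    have hpU : p ∈ U := by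
      obtain ⟨n, hn⟩ := exists_nat_gt (ρ p)
      exact mem_iUnion.2 ⟨n, hmem _ hn⟩
    have hUc : IsClosed U := by
      rw [← closure_subset_iff_isClosed]
      intro x hx
      obtain ⟨n, hn⟩ := exists_nat_gt (max (ρ x) (ρ p))
      have hxn : ρ x < n := lt_of_le_of_lt (le_max_left _ _) hn
      let Cx : Set X := connectedComponentIn {x | ρ x < (n : ℝ)} x
      have hCo : IsOpen Cx := (hopen _).connectedComponentIn
      have hxC : x ∈ Cx := mem_connectedComponentIn hxn
      obtain ⟨y, hyC, hyU⟩ := mem_closure_iff.1 hx Cx hCo hxC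
      obtain ⟨m, hm⟩ := mem_iUnion.1 hyU
      let N : ℕ := max m n
      have hN1 : (m : ℝ) ≤ N := by exact_mod_cast le_max_left m n
      have hN2 : (n : ℝ) ≤ N := by exact_mod_cast le_max_right m n
      have h1 : IsPreconnected (Ω (m : ℝ) ∪ Cx) :=
        (hΩc _).union y hm hyC isPreconnected_connectedComponentIn
      have h2 : Ω (m : ℝ) ∪ Cx ⊆ {x | ρ x < (N : ℝ)} := by
        rintro z (hz | hz)
        · exact lt_of_lt_of_le (hΩρ _ hz) hN1
        · have h4 : z ∈ {x | ρ x < (n : ℝ)} := connectedComponentIn_subset _ _ hz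
          exact lt_of_lt_of_le h4 hN2
      have h3 : p ∈ Ω (m : ℝ) := hmem _ (hpa _ ⟨y, hm⟩)
      exact mem_iUnion.2 ⟨N, h1.subset_connectedComponentIn (Or.inl h3) h2 (Or.inr hxC)⟩
    intro x hx
    exact mem_iUnion.1 (IsClopen.connectedComponent_subset ⟨hUc, hUo⟩ hpU hx : x ∈ U)
  · intro a x hx
    exact (hΩc a).subset_connectedComponent (hmem a (hpa a ⟨x, hx⟩)) hx

end top

variable {E : Type u} [NormedAddCommGroup E] [NormedSpace ℂ E] [FiniteDimensional ℂ E]
  {X : Type v} [TopologicalSpace X] [ChartedSpace E X]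

variable (E) in
/-- `D` is tame: for every exhaustion function `ρ` and every `ζ : D → ℝ⁺` there is an automorphism
`φ` with `ρ (φ x) ≥ ζ x` on `D`. -/
def IsTame (D : Set X) : Prop :=
  ∀ ρ : X → ℝ, IsExhaustion ρ → ∀ ζ : X → ℝ, ∃ φ : X ≃ X, IsAut E φ ∧ ∀ x ∈ D, ζ x ≤ ρ (φ x)

omit [FiniteDimensional ℂ E] in
theorem aut_image_comp {φ : X ≃ X} (hφ : IsAut E φ) (p : X) :
    φ '' connectedComponent p = connectedComponent (φ p) := by
  apply Subset.antisymm
  · exact (isPreconnected_connectedComponent.image _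
      hφ.1.continuous.continuousOn).subset_connectedComponent ⟨p, mem_connectedComponent, rfl⟩
  · intro z hz
    have h1 := (isPreconnected_connectedComponent.image (s := connectedComponent (φ p)) _
      hφ.2.continuous.continuousOn).subset_connectedComponent
        ⟨φ p, mem_connectedComponent, rfl⟩ ⟨z, hz, rfl⟩
    rw [Equiv.symm_apply_apply] at h1
    exact ⟨φ.symm z, h1, by simp⟩

omit [FiniteDimensional ℂ E] in
theorem isAut_symm {φ : X ≃ X} (hφ : IsAut E φ) : IsAut E φ.symm :=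
  ⟨hφ.2, by simpa using hφ.1⟩

omit [FiniteDimensional ℂ E] in
theorem isAut_trans {φ ψ : X ≃ X} (hφ : IsAut E φ) (hψ : IsAut E ψ) : IsAut E (φ.trans ψ) :=
  ⟨hψ.1.comp hφ.1, hφ.2.comp hψ.2⟩

omit [FiniteDimensional ℂ E] in
/-- From tameness in `X` to tameness along one component `Y`. -/
theorem tame_component [T2Space X] [LocallyConnectedSpace X]
    (hcon : ∀ D : Set X, D.Infinite → (∀ x, ¬ AccPt x (𝓟 D)) → IsTame E D)
    {ρ : X → ℝ} (hρ : IsExhaustion ρ) (p : X) {D : Set X} (hDY : D ⊆ connectedComponent p)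
    (hDi : D.Infinite) (hDf : ∀ x ∈ connectedComponent p, ∃ N ∈ 𝓝 x, (D ∩ N).Finite)
    (ζ : X → ℝ) : ∃ χ : X ≃ X, IsAut E χ ∧ χ '' connectedComponent p = connectedComponent p ∧
      ∀ x ∈ D, ζ x ≤ ρ (χ x) := by
  classical
  let Y : Set X := connectedComponent p
  let Orb : Set (Set X) := {Z | ∃ ψ : X ≃ X, IsAut E ψ ∧ ψ '' Y = Z}
  have hψ : ∀ Z ∈ Orb, ∃ ψ : X ≃ X, IsAut E ψ ∧ ψ '' Y = Z := fun Z hZ => hZ
  choose! ψ hψA hψY using hψ
  have hcomp : ∀ Z ∈ Orb, ∀ z ∈ Z, connectedComponent z = Z := by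
    intro Z hZ z hz
    rw [← hψY Z hZ] at hz ⊢
    obtain ⟨y, hy, rfl⟩ := hz
    have h5 : connectedComponent y = Y := (connectedComponent_eq hy).symm
    rw [← aut_image_comp (hψA Z hZ) y, h5]
  let D' : Set X := ⋃ Z ∈ Orb, ψ Z '' D
  have hYO : Y ∈ Orb := ⟨Equiv.refl X, ⟨mdifferentiable_id, mdifferentiable_id⟩, by simp⟩
  have hD'i : D'.Infinite := by
    refine (hDi.image (f := ψ Y) (ψ Y).injective.injOn).mono ?_
    exact subset_iUnion₂_of_subset Y hYO subset_rfl
  have hD'a : ∀ x, ¬ AccPt x (𝓟 D') := by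
    intro x
    apply not_accPt_of_finite
    by_cases hx : connectedComponent x ∈ Orb
    · let Z := connectedComponent x
      have hxZ : x ∈ ψ Z '' Y := by rw [hψY Z hx]; exact mem_connectedComponent
      obtain ⟨y, hy, hyx⟩ := hxZ
      obtain ⟨N, hN, hfin⟩ := hDf y hy
      have h1 : (ψ Z).symm ⁻¹' (N ∩ Y) ∈ 𝓝 x := by
        refine (hψA Z hx).2.continuous.continuousAt.preimage_mem_nhds ?_
        rw [← hyx, Equiv.symm_apply_apply]
        refine inter_mem hN (isOpen_connectedComponent.mem_nhds hy)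
      refine ⟨_, h1, (hfin.image (ψ Z)).subset ?_⟩
      rintro z ⟨hzD, hzN⟩
      simp only [D', mem_iUnion] at hzD
      obtain ⟨Z', hZ', w, hw, hwz⟩ := hzD
      have h2 : connectedComponent z = Z' :=
        hcomp Z' hZ' z (by rw [← hψY Z' hZ', ← hwz]; exact ⟨w, hDY hw, rfl⟩)
      have h3 : connectedComponent z = Z :=
        hcomp Z hx z (by rw [← hψY Z hx]; exact ⟨_, hzN.2, by simp⟩)
      have h4 : Z' = Z := h2.symm.trans h3
      subst h4
      rw [← hwz] at hzN ⊢
      refine ⟨w, ⟨hw, ?_⟩, rfl⟩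
      have h5 := hzN.1
      simpa using h5
    · refine ⟨connectedComponent x, isOpen_connectedComponent.mem_nhds mem_connectedComponent, ?_⟩
      have h1 : D' ∩ connectedComponent x = ∅ := by
        rw [eq_empty_iff_forall_notMem]
        rintro z ⟨hzD, hzx⟩
        simp only [D', mem_iUnion] at hzD
        obtain ⟨Z', hZ', w, hw, hwz⟩ := hzD
        have h2 : connectedComponent z = Z' :=
          hcomp Z' hZ' z (by rw [← hψY Z' hZ', ← hwz]; exact ⟨w, hDY hw, rfl⟩)
        rw [← connectedComponent_eq hzx] at h2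
        exact hx (h2 ▸ hZ')
      rw [h1]; exact finite_empty
  obtain ⟨φ, hφ, hφD⟩ := hcon D' hD'i hD'a ρ hρ
    (fun d => ζ ((ψ (connectedComponent d)).symm d))
  let Z : Set X := φ.symm '' Y
  have hZ : Z ∈ Orb := ⟨φ.symm, isAut_symm hφ, rfl⟩
  refine ⟨(ψ Z).trans φ, isAut_trans (hψA Z hZ) hφ, ?_, ?_⟩
  · change (fun x => φ (ψ Z x)) '' Y = Y
    have h1 : (fun x => φ (ψ Z x)) '' Y = φ '' (ψ Z '' Y) := by rw [← image_comp]; rfl
    rw [h1, hψY Z hZ]
    change φ '' (φ.symm '' Y) = Y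
    rw [← image_comp]; simp
  · intro y hy
    have h1 : ψ Z y ∈ D' := mem_iUnion₂.2 ⟨Z, hZ, y, hy, rfl⟩
    have h2 := hφD _ h1
    have h4 : ψ Z y ∈ Z := by
      have h5 : ψ Z y ∈ ψ Z '' Y := ⟨y, hDY hy, rfl⟩
      rw [hψY Z hZ] at h5
      exact h5
    have h3 : connectedComponent (ψ Z y) = Z := hcomp Z hZ _ h4
    simp only [h3, Equiv.symm_apply_apply] at h2
    exact h2

theorem main2 [IsManifold 𝓘(ℂ, E) 1 X] [T2Space X] [SecondCountableTopology X]
    [NoncompactSpace X]
    (hEQ : S_EQ.{u, v}) (hLIM : S_MLIM.{u, v}) (hNI : S_MNI.{u, v}) (hID : S_MID.{u, v})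
    (hDET : S_MDET.{u, v}) (hX : NoCurve E X) :
    ∃ D : Set X, D.Infinite ∧ (∀ x, ¬ AccPt x (𝓟 D)) ∧ ¬ IsTame E D := by
  classical
  by_contra hcon
  push Not at hcon
  have : LocallyConnectedSpace X := ChartedSpace.locallyConnectedSpace E X
  have : ProperSpace E := FiniteDimensional.proper ℂ E
  have : LocallyCompactSpace X := ChartedSpace.locallyCompactSpace E X
  obtain ⟨ρ, hρc, hρ0, hρK⟩ := exists_proper X
  have hρ : IsExhaustion ρ := ⟨hρc, hρ0, fun r _ => hρK r⟩
  by_cases hall : ∀ p : X, IsCompact (connectedComponent p)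
  · -- all components are compact
    have hne : Nonempty X := by
      by_contra h
      rw [not_nonempty_iff] at h
      exact noncompact_univ X (by rw [univ_eq_empty_iff.2 h]; exact isCompact_empty)
    obtain ⟨p⟩ := hne
    let s : ConnectedComponents X → X := Quot.out
    have hs : ∀ c, (ConnectedComponents.mk (s c)) = c := fun c => Quot.out_eq c
    let D : Set X := range s
    have hDi : D.Infinite := by
      intro hfin
      have h1 : (⋃ d ∈ D, connectedComponent d) = univ := by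
        rw [eq_univ_iff_forall]
        intro x
        refine mem_iUnion₂.2 ⟨s (ConnectedComponents.mk x), ⟨_, rfl⟩, ?_⟩
        rw [ConnectedComponents.coe_eq_coe.1 (hs (ConnectedComponents.mk x))]
        exact mem_connectedComponent
      refine noncompact_univ X ?_
      rw [← h1]
      exact hfin.isCompact_biUnion fun d _ => hall d
    have hDa : ∀ x, ¬ AccPt x (𝓟 D) := by
      intro x
      apply not_accPt_of_finite
      refine ⟨connectedComponent x, isOpen_connectedComponent.mem_nhds mem_connectedComponent, ?_⟩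
      refine (finite_singleton (s (ConnectedComponents.mk x))).subset ?_
      rintro z ⟨⟨c, rfl⟩, hz⟩
      rw [mem_singleton_iff]
      congr 1
      rw [← hs c, ConnectedComponents.coe_eq_coe]
      exact (connectedComponent_eq hz).symm
    obtain ⟨M, hM⟩ := (hall p).exists_bound_of_continuousOn (f := ρ) hρc.continuousOn
    obtain ⟨φ, hφ, hφD⟩ := hcon D hDi hDa ρ hρ (fun _ => M + 1)
    let q : X := φ.symm p
    have h1 : s (ConnectedComponents.mk q) ∈ connectedComponent q := by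
      rw [← ConnectedComponents.coe_eq_coe.1 (hs (ConnectedComponents.mk q))]
      exact mem_connectedComponent
    have h2 : φ (s (ConnectedComponents.mk q)) ∈ connectedComponent p := by
      have h3 := aut_image_comp hφ q
      simp only [q, Equiv.apply_symm_apply] at h3
      rw [← h3]
      exact ⟨_, h1, rfl⟩
    have h4 := hM _ h2
    have h5 := hφD _ ⟨ConnectedComponents.mk q, rfl⟩
    rw [Real.norm_eq_abs] at h4
    have h6 := le_abs_self (ρ (φ (s (ConnectedComponents.mk q))))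
    linarith
  · push Not at hall
    obtain ⟨p, hp⟩ := hall
    let Y : Set X := connectedComponent p
    have hYo : IsOpen Y := isOpen_connectedComponent
    have hYcl : IsClosed Y := isClosed_connectedComponent
    obtain ⟨Ω, hΩo, hΩc, hΩρ, hΩm, hΩx, hΩY⟩ := exh' (ρ := ρ) hρc p
    have hsub : ∀ a, closure (Ω a) ⊆ {x | ρ x ≤ a} := by
      intro a
      refine closure_minimal (fun x hx => ?_) (isClosed_le hρc continuous_const)
      have h1 : ρ x < a := hΩρ a hx
      exact h1.le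
    have hΩK : ∀ a, IsCompact (closure (Ω a)) := fun a =>
      (hρK a).of_isClosed_subset isClosed_closure (hsub a)
    have hmono : ∀ a b, a ≤ b → Ω a ⊆ Ω b := by
      intro a b hab
      rcases hab.eq_or_lt with rfl | h
      · exact subset_rfl
      · exact subset_closure.trans (hΩm a b h)
    have hclY : ∀ a, closure (Ω a) ⊆ Y := fun a =>
      (hΩm a (a + 1) (by linarith)).trans (hΩY _)
    have hpY : p ∈ Y := mem_connectedComponent
    have hne : Nonempty X := ⟨p⟩
    obtain ⟨n0, hn0⟩ := hΩx p hpY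
    let V : Set X := Ω (n0 : ℝ)
    have hVY : V ⊆ Y := hΩY _
    obtain ⟨k, hk⟩ := diag Y (fun n => (fun y : Y => (y : X)) ⁻¹' closure (Ω (n : ℝ)))
      (fun φ => ∃ e : X ≃ X, IsAut E e ∧ e '' Y = Y ∧ ∀ y : Y, (φ y : X) = e y)
      ((fun y : Y => (y : X)) ⁻¹' V)
      (fun m n hmn => preimage_mono (closure_mono (hmono _ _ (by exact_mod_cast hmn))))
      (fun x => (hΩx x x.2).imp fun n hn => subset_closure hn)
      (fun n h => by
        refine hp ((hΩK (n : ℝ)).of_isClosed_subset hYcl ?_)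
        intro y hy
        have : (⟨y, hy⟩ : Y) ∈ (univ : Set Y) := mem_univ _
        rw [← h] at this
        exact this)
      (by
        rintro φ ⟨e, he, heY, hφe⟩
        obtain ⟨k, hk⟩ := compact_subset' (Y := Y) hΩo hΩm hΩx
          ((hΩK (n0 : ℝ)).image he.1.continuous) (by
            rintro _ ⟨z, hz, rfl⟩
            rw [← heY]
            exact ⟨z, hclY _ hz, rfl⟩)
        refine ⟨k, fun z hz => ?_⟩
        change (φ z : X) ∈ closure (Ω (k : ℝ))
        rw [hφe z]
        exact subset_closure (hk ⟨z, subset_closure hz, rfl⟩))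
      (by
        intro D hDi hDf ζ
        have h1 : ((fun y : Y => (y : X)) '' D).Infinite :=
          hDi.image Subtype.val_injective.injOn
        obtain ⟨χ, hχ, hχY, h2⟩ := tame_component hcon hρ p
          (D := (fun y : Y => (y : X)) '' D) (by rintro _ ⟨y, _, rfl⟩; exact y.2) h1
          (by
            intro x hx
            obtain ⟨n, hn⟩ := hΩx x hx
            refine ⟨Ω (n : ℝ), (hΩo _).mem_nhds hn, ((hDf n).image (fun y : Y => (y : X))).subset ?_⟩
            rintro _ ⟨⟨y, hy, rfl⟩, hyn⟩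
            exact ⟨y, ⟨hy, subset_closure hyn⟩, rfl⟩)
          (fun x => if h : x ∈ Y then (ζ ⟨x, h⟩ : ℝ) + 1 else 0)
        refine ⟨fun y => ⟨χ y, hχY.subset ⟨y, y.2, rfl⟩⟩, ⟨χ, hχ, hχY, fun y => rfl⟩, ?_⟩
        intro y hy hmem
        have h3 : ρ (χ y) ≤ (ζ y : ℝ) := hsub _ hmem
        have h4 := h2 y ⟨y, hy, rfl⟩
        have h5 : (y : X) ∈ Y := y.2
        simp only [h5, dif_pos, Subtype.coe_eta] at h4
        linarith)
    have hk' : ∀ i : ℕ, ∀ D : Set X, D ⊆ Y → (∀ n : ℕ, (D ∩ closure (Ω (n : ℝ))).Finite) →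
        Disjoint D (closure (Ω (k : ℝ))) →
        ∃ φ : X ≃ X, IsAut E φ ∧ φ '' Y = Y ∧ MapsTo φ V (closure (Ω (k : ℝ))) ∧
          ∀ x ∈ D, φ x ∉ closure (Ω (i : ℝ)) := by
      intro i D hDY hDf hDk
      obtain ⟨φ, ⟨e, he, heY, hφe⟩, h1, h2⟩ := hk i ((fun y : Y => (y : X)) ⁻¹' D)
        (fun n => by
          rw [← preimage_inter]
          exact (hDf n).preimage Subtype.val_injective.injOn)
        (hDk.preimage _)
      refine ⟨e, he, heY, ?_, ?_⟩
      · intro z hz
        have h3 : ((φ ⟨z, hVY hz⟩ : Y) : X) ∈ closure (Ω (k : ℝ)) := h1 (x := ⟨z, hVY hz⟩) hz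
        rwa [hφe] at h3
      · intro x hx h3
        have h4 : ((φ ⟨x, hDY hx⟩ : Y) : X) ∈ closure (Ω (i : ℝ)) := by
          rw [hφe]
          exact h3
        exact h2 ⟨x, hDY hx⟩ hx h4
    have hsq : ∀ i : ℕ, k + 1 ≤ i → ∃ H : X ≃ X, IsAut E H ∧ H '' Y = Y ∧
        MapsTo H.symm V (closure (Ω (k : ℝ))) ∧
        MapsTo H (closure (Ω (i : ℝ))) (closure (Ω ((k : ℝ) + 1))) := fun i hi =>
      squeeze' hEQ hLIM hNI hDET hX hΩo hΩc hΩK hΩm hΩx hΩY (hΩo _) ⟨_, hn0⟩ hk' i hi
    choose! H hH1 hHY hH2 hH3 using hsq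
    have hfin := subset_of_squeeze hEQ hLIM hNI hID hX hYo isPreconnected_connectedComponent
      hΩo hΩK hΩm hΩx hΩY (hΩo (n0 : ℝ)) ⟨_, hn0⟩ hVY
      (hΩK ((k : ℝ) + 1)) (k := k) (fun i => H (max i (k + 1)))
      (fun i => hH1 _ (le_max_right _ _)) (fun i => hHY _ (le_max_right _ _))
      (fun i => hH2 _ (le_max_right _ _))
      (fun i hi => by
        have := hH3 _ (le_max_right i (k + 1))
        rw [max_eq_left hi] at this ⊢
        exact this)
    exact hp ((hΩK ((k : ℝ) + 1)).of_isClosed_subset hYcl hfin)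

omit [FiniteDimensional ℂ E] in
/-- If every compact set has an open neighbourhood whose points are separated by holomorphic
functions, then entire curves with relatively compact image are constant (Liouville). -/
theorem noCurve_of_separated [T2Space X]
    (h : ∀ K : Set X, IsCompact K → ∃ U : Set X, IsOpen U ∧ K ⊆ U ∧ ∀ x ∈ U, ∀ y ∈ U, x ≠ y →
      ∃ f : X → ℂ, MDifferentiableOn 𝓘(ℂ, E) 𝓘(ℂ, ℂ) f U ∧ f x ≠ f y) : NoCurve E X := by
  rintro c hc ⟨K, hK, hcK⟩ z w
  by_contra hne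
  obtain ⟨U, hU, hKU, hsep⟩ := h K hK
  obtain ⟨f, hf, hfne⟩ := hsep _ (hKU (hcK z)) _ (hKU (hcK w)) hne
  have h1 : MDifferentiable 𝓘(ℂ, ℂ) 𝓘(ℂ, ℂ) (f ∘ c) := fun t =>
    MDifferentiableAt.comp t (hf.mdifferentiableAt (hU.mem_nhds (hKU (hcK t)))) (hc t)
  have h2 : Differentiable ℂ (f ∘ c) := mdifferentiable_iff_differentiable.1 h1
  have h3 : Bornology.IsBounded (range (f ∘ c)) := by
    refine ((hK.image_of_continuousOn (hf.continuousOn.mono hKU)).isBounded).subset ?_
    rintro _ ⟨t, rfl⟩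
    exact ⟨c t, hcK t, rfl⟩
  exact hfne (h2.apply_eq_apply_of_bounded h3 z w)

end Pool.Agent.H559.NT
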