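import Pool.Agent.H559.NT.Stm

/-!
# Project NT: the Rosay–Rudin lemma for automorphisms

Finite sets that are hit by every automorphism of a normalised family which does not map `U'`
into `M`.
-/

set_option autoImplicit false

open Set Filter Topology Metric
open scoped Manifold

namespace Pool.Agent.H559.NT

universe u v

variable {E : Type u} [NormedAddCommGroup E] [NormedSpace ℂ E] [FiniteDimensional ℂ E]
  {X : Type v} [TopologicalSpace X] [ChartedSpace E X]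

variable (E) in
/-- Biholomorphic self-maps. -/
def IsAut (φ : X ≃ X) : Prop :=
  MDifferentiable 𝓘(ℂ, E) 𝓘(ℂ, E) φ ∧ MDifferentiable 𝓘(ℂ, E) 𝓘(ℂ, E) φ.symm

/-- If `G ∘ ψ = id` near `x` then `G` has invertible differential at `ψ x`. -/
theorem inv_of_comp {G ψ : X → X} {x : X} (hG : MDifferentiableAt 𝓘(ℂ, E) 𝓘(ℂ, E) G (ψ x))
    (hψ : MDifferentiableAt 𝓘(ℂ, E) 𝓘(ℂ, E) ψ x) (h : ∀ᶠ z in 𝓝 x, G (ψ z) = z) :
    Inv E G (ψ x) := by
  refine ⟨hG, ?_⟩
  have h1 : mfderiv 𝓘(ℂ, E) 𝓘(ℂ, E) (G ∘ ψ) x = mfderiv 𝓘(ℂ, E) 𝓘(ℂ, E) (id : X → X) x :=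
    Filter.EventuallyEq.mfderiv_eq (by filter_upwards [h] with z hz using hz)
  rw [mfderiv_comp x hG hψ, mfderiv_id] at h1
  have h2 : Function.Surjective (mfderiv 𝓘(ℂ, E) 𝓘(ℂ, E) G (ψ x)) := by
    intro w
    refine ⟨mfderiv 𝓘(ℂ, E) 𝓘(ℂ, E) ψ x w, ?_⟩
    exact DFunLike.congr_fun h1 w
  have h3 : FiniteDimensional ℂ (TangentSpace 𝓘(ℂ, E) (ψ x)) :=
    inferInstanceAs (FiniteDimensional ℂ E)
  let A : E →ₗ[ℂ] E := (mfderiv 𝓘(ℂ, E) 𝓘(ℂ, E) G (ψ x)).toLinearMap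
  have h4 : Function.Surjective A := h2
  exact ⟨(LinearMap.injective_iff_surjective (f := A)).2 h4, h2⟩

theorem conv_tendsto {ι : Type} {l : Filter ι} {U : Set X} {F : ι → X → X} {G : X → X}
    (h : Conv l U F G) {x : X} (hx : x ∈ U) {y : ι → X} (hy : Tendsto y l (𝓝 x)) :
    Tendsto (fun m => F m (y m)) l (𝓝 (G x)) := by
  rw [tendsto_def]
  intro O hO
  obtain ⟨W, hW, h1⟩ := h x hx O hO
  have h4 : ∀ᶠ m in l, y m ∈ W := hy hW
  exact (h1.and h4).mono fun m h => h.1 h.2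

theorem rr [IsManifold 𝓘(ℂ, E) 1 X] [T2Space X] [SecondCountableTopology X] [Nonempty X]
    (hEQ : S_EQ.{u, v}) (hLIM : S_MLIM.{u, v}) (hNI : S_MNI.{u, v}) (hDET : S_MDET.{u, v})
    (hX : NoCurve E X) {V C0 U U' B L M : Set X} (hV : IsOpen V) (hVne : V.Nonempty)
    (hC0 : IsCompact C0) (hU : IsOpen U) (hUc : IsPreconnected U) (hU' : IsOpen U')
    (hU'c : IsCompact (closure U')) (hU'U : closure U' ⊆ U) (hC0U : C0 ⊆ U) (hB : IsCompact B)
    (hL : IsClosed L) (hLM : L ⊆ interior M) :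
    ∃ S : Finset X, (∀ e ∈ S, e ∉ L) ∧ ∀ H : X ≃ X, IsAut E H → MapsTo H.symm V C0 →
      MapsTo H U B → (∀ e ∈ S, e ∉ H '' U') → MapsTo H U' M := by
  classical
  by_contra hcon
  push Not at hcon
  let d : ℕ → X := TopologicalSpace.denseSeq X
  let S : ℕ → Finset X := fun m => ((Finset.range m).image d).filter (fun e => e ∉ L)
  have hS : ∀ m, ∀ e ∈ S m, e ∉ L := fun m e he => (Finset.mem_filter.1 he).2
  choose H hH1 hH2 hH3 hH4 hH5 using fun m => hcon (S m) (hS m)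
  have hx : ∀ m, ∃ x ∈ U', H m x ∉ M := by
    intro m
    have := hH5 m
    simpa [MapsTo] using this
  choose x hxU' hxM using hx
  let l : Ultrafilter ℕ := hyperfilter ℕ
  have hl : (l : Filter ℕ) ≤ atTop := by
    rw [← Nat.cofinite_eq_atTop]; exact hyperfilter_le_cofinite
  -- limits
  obtain ⟨G, hGB, hG⟩ := hEQ E X hX l U B hU hB (fun m => H m)
    (Eventually.of_forall fun m => ⟨(hH1 m).1.mdifferentiableOn, hH3 m⟩)
  obtain ⟨ψ, hψC, hψ⟩ := hEQ E X hX l V C0 hV hC0 (fun m => (H m).symm)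
    (Eventually.of_forall fun m => ⟨(hH1 m).2.mdifferentiableOn, hH2 m⟩)
  have hGhol : Hol E U G := hLIM E X l U (fun m => H m) G hU
    (Eventually.of_forall fun m => (hH1 m).1.mdifferentiableOn) hG
  have hψhol : Hol E V ψ := hLIM E X l V (fun m => (H m).symm) ψ hV
    (Eventually.of_forall fun m => (hH1 m).2.mdifferentiableOn) hψ
  -- limit point
  obtain ⟨x0, hx0, hx0l⟩ := hU'c.ultrafilter_le_nhds (l.map x) (by
    rw [Ultrafilter.coe_map, le_principal_iff, mem_map]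
    exact Eventually.of_forall fun m => subset_closure (hxU' m))
  have hxl : Tendsto x l (𝓝 x0) := hx0l
  have hx0U : x0 ∈ U := hU'U hx0
  have hGx0 : G x0 ∉ L := by
    intro h1
    have h2 : ∀ᶠ m in (l : Filter ℕ), H m (x m) ∈ interior M :=
      conv_tendsto hG hx0U hxl (isOpen_interior.mem_nhds (hLM h1))
    obtain ⟨m, hm⟩ := h2.exists
    exact hxM m (interior_subset hm)
  -- `G ∘ ψ = id` on `V`
  have hGψ : ∀ v ∈ V, G (ψ v) = v := by
    intro v hv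
    have h1 : Tendsto (fun m => (H m).symm v) l (𝓝 (ψ v)) :=
      conv_tendsto hψ hv tendsto_const_nhds
    have h2 : Tendsto (fun m => H m ((H m).symm v)) l (𝓝 (G (ψ v))) :=
      conv_tendsto hG (hC0U (hψC hv)) h1
    simp only [Equiv.apply_symm_apply] at h2
    exact (tendsto_nhds_unique h2 tendsto_const_nhds)
  obtain ⟨v0, hv0⟩ := hVne
  have hinv0 : Inv E G (ψ v0) := by
    refine inv_of_comp (hGhol.mdifferentiableAt (hU.mem_nhds (hC0U (hψC hv0))))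
      (hψhol.mdifferentiableAt (hV.mem_nhds hv0)) ?_
    filter_upwards [hV.mem_nhds hv0] with z hz using hGψ z hz
  -- an open set where `G` avoids `L`
  have hGc : ContinuousOn G U := hGhol.continuousOn
  have hO1 : IsOpen (U ∩ G ⁻¹' Lᶜ) := hGc.isOpen_inter_preimage hU hL.isOpen_compl
  have hO : IsOpen ((U ∩ G ⁻¹' Lᶜ) ∩ U') := hO1.inter hU'
  have hOne : ((U ∩ G ⁻¹' Lᶜ) ∩ U').Nonempty :=
    mem_closure_iff.1 hx0 _ hO1 ⟨hx0U, hGx0⟩
  obtain ⟨y, hyO, hyinv⟩ := hDET E X U ((U ∩ G ⁻¹' Lᶜ) ∩ U') G hU hUc hGhol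
    ⟨ψ v0, hC0U (hψC hv0), hinv0⟩ hO hOne (fun z hz => hz.1.1)
  obtain ⟨O', hO', hev⟩ := hNI E X l U (fun m => H m) G hU
    (Eventually.of_forall fun m => (hH1 m).1.mdifferentiableOn) hG y hyO.1.1 hyinv
    ((U ∩ G ⁻¹' Lᶜ) ∩ U') (hO.mem_nhds hyO)
  have hO'' : IsOpen (interior O' ∩ Lᶜ) := isOpen_interior.inter hL.isOpen_compl
  obtain ⟨n, hn⟩ := (TopologicalSpace.denseRange_denseSeq X).exists_mem_open hO''
    ⟨G y, mem_interior_iff_mem_nhds.2 hO', hyO.1.2⟩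
  have hbig : ∀ᶠ m in (l : Filter ℕ), n < m := hl (eventually_gt_atTop n)
  obtain ⟨m, hm1, hm2⟩ := (hev.and hbig).exists
  obtain ⟨z, hz, hzn, -⟩ := hm1 (d n) (interior_subset hn.1)
  refine hH4 m (d n) ?_ ⟨z, hz.2, hzn⟩
  simp only [S, Finset.mem_filter, Finset.mem_image, Finset.mem_range]
  exact ⟨⟨n, hm2, rfl⟩, hn.2⟩

end Pool.Agent.H559.NT
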