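import Mathlib

/-!
# Project NT (MP_884f32_an): non-tame discrete sets. Definitions and statements of the jobs

`X` is a complex manifold modelled on a finite dimensional complex normed space `E`.
Holomorphic maps are the `MDifferentiable` maps.
-/

set_option autoImplicit false

open Set Filter Topology Metric
open scoped Manifold

namespace Pool.Agent.H559.NT

universe u v w

/-! ## Lemmas in `E` (Mathlib only) -/

/-- Cauchy estimate and Lipschitz bound on the half ball. -/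
def S_CAUCHY : Prop :=
  ∀ (E : Type u) [NormedAddCommGroup E] [NormedSpace ℂ E]
    (F : Type v) [NormedAddCommGroup F] [NormedSpace ℂ F] [CompleteSpace F]
    (g : E → F) (x : E) (R M : ℝ), 0 < R → DifferentiableOn ℂ g (ball x R) →
    (∀ z ∈ ball x R, ‖g z‖ ≤ M) →
    (∀ z ∈ ball x (R / 2), ‖fderiv ℂ g z‖ ≤ 2 * M / R) ∧
    ∀ z ∈ ball x (R / 2), ∀ w ∈ ball x (R / 2), ‖g z - g w‖ ≤ 2 * M / R * ‖z - w‖

/-- A bounded pointwise limit of holomorphic maps is holomorphic, with uniform convergence on the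
half ball. -/
def S_ELIM : Prop :=
  ∀ (E : Type u) [NormedAddCommGroup E] [NormedSpace ℂ E] [FiniteDimensional ℂ E]
    (F : Type v) [NormedAddCommGroup F] [NormedSpace ℂ F] [CompleteSpace F]
    (ι : Type) (l : Filter ι) [l.NeBot] (f : ι → E → F) (g : E → F) (x : E) (R M : ℝ), 0 < R →
    (∀ᶠ m in l, DifferentiableOn ℂ (f m) (ball x R) ∧ ∀ z ∈ ball x R, ‖f m z‖ ≤ M) →
    (∀ z ∈ ball x R, Tendsto (fun m => f m z) l (𝓝 (g z))) →
    DifferentiableOn ℂ g (ball x R) ∧ TendstoUniformlyOn f g l (ball x (R / 2))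

/-- If `f m → g` uniformly and `Dg(x)` is invertible, then `f m (ball x s)` contains a fixed ball
around `g x`, attained at points where `D (f m)` is invertible. -/
def S_ENI : Prop :=
  ∀ (E : Type u) [NormedAddCommGroup E] [NormedSpace ℂ E] [FiniteDimensional ℂ E]
    (ι : Type) (l : Filter ι) (f : ι → E → E) (g : E → E) (x : E) (R : ℝ) (A : E ≃L[ℂ] E),
    0 < R → (∀ᶠ m in l, DifferentiableOn ℂ (f m) (ball x R)) →
    TendstoUniformlyOn f g l (ball x R) → HasFDerivAt g (A : E →L[ℂ] E) x →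
    ∀ s : ℝ, 0 < s → ∃ ε : ℝ, 0 < ε ∧ ∀ᶠ m in l, ∀ y ∈ ball (g x) ε,
      ∃ z ∈ ball x s, z ∈ ball x R ∧ f m z = y ∧ Function.Bijective (fderiv ℂ (f m) z)

/-- Identity theorem on balls of `E`. -/
def S_EID : Prop :=
  ∀ (E : Type u) [NormedAddCommGroup E] [NormedSpace ℂ E]
    (F : Type v) [NormedAddCommGroup F] [NormedSpace ℂ F] [CompleteSpace F]
    (f : E → F) (x : E) (R : ℝ), DifferentiableOn ℂ f (ball x R) →
    ∀ O : Set E, IsOpen O → O.Nonempty → O ⊆ ball x R → (∀ z ∈ O, f z = 0) →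
    ∀ z ∈ ball x R, f z = 0

/-- Degenerate on an open set implies degenerate on the whole ball. -/
def S_EDET : Prop :=
  ∀ (E : Type u) [NormedAddCommGroup E] [NormedSpace ℂ E] [FiniteDimensional ℂ E]
    (f : E → E) (x : E) (R : ℝ), DifferentiableOn ℂ f (ball x R) →
    ∀ O : Set E, IsOpen O → O.Nonempty → O ⊆ ball x R →
    (∀ z ∈ O, ¬ Function.Bijective (fderiv ℂ f z)) →
    ∀ z ∈ ball x R, ¬ Function.Bijective (fderiv ℂ f z)

/-! ## Topology (Mathlib only) -/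

/-- Exhaustion function and exhaustion by connected open sets. -/
def S_EXH : Prop :=
  ∀ (X : Type u) [TopologicalSpace X] [T2Space X] [LocallyCompactSpace X] [SigmaCompactSpace X]
    [LocallyConnectedSpace X] [ConnectedSpace X],
    ∃ (ρ : X → ℝ) (Ω : ℝ → Set X), Continuous ρ ∧ (∀ x, 0 ≤ ρ x) ∧
      (∀ r, IsCompact {x | ρ x ≤ r}) ∧ (∀ a, IsOpen (Ω a)) ∧ (∀ a, IsPreconnected (Ω a)) ∧
      (∀ a, Ω a ⊆ {x | ρ x < a}) ∧ (∀ a b, a < b → closure (Ω a) ⊆ Ω b) ∧
      ∀ x, ∃ n : ℕ, x ∈ Ω (n : ℝ)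

/-- Diagonal argument: if every infinite locally finite set can be moved away at any speed by maps
of the class `P`, then for one `k` all locally finite sets off `K k` can be moved off `K i` by a
map of the class `P` that maps `V` to `K k`. -/
def S_DIAG : Prop :=
  ∀ (X : Type u) (K : ℕ → Set X) (P : (X → X) → Prop) (V : Set X),
    (∀ m n, m ≤ n → K m ⊆ K n) → (∀ x, ∃ n, x ∈ K n) → (∀ n, K n ≠ univ) →
    (∀ φ, P φ → ∃ k, MapsTo φ V (K k)) →
    (∀ D : Set X, D.Infinite → (∀ n, (D ∩ K n).Finite) → ∀ ζ : X → ℕ,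
      ∃ φ, P φ ∧ ∀ x ∈ D, φ x ∉ K (ζ x)) →
    ∃ k, ∀ i, ∀ D : Set X, (∀ n, (D ∩ K n).Finite) → Disjoint D (K k) →
      ∃ φ, P φ ∧ MapsTo φ V (K k) ∧ ∀ x ∈ D, φ x ∉ K i

/-! ## Manifolds -/

section

variable (E : Type u) [NormedAddCommGroup E] [NormedSpace ℂ E]
  (X : Type v) [TopologicalSpace X] [ChartedSpace E X]

/-- Every entire curve `ℂ → X` with relatively compact image is constant. -/
def NoCurve : Prop :=
  ∀ f : ℂ → X, MDifferentiable 𝓘(ℂ, ℂ) 𝓘(ℂ, E) f → (∃ K, IsCompact K ∧ ∀ z, f z ∈ K) →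
    ∀ z w, f z = f w

variable {X}

/-- `F m → G` continuously (locally uniformly) at the points of `U` along `l`. -/
def Conv {ι : Type w} (l : Filter ι) (U : Set X) (F : ι → X → X) (G : X → X) : Prop :=
  ∀ x ∈ U, ∀ O ∈ 𝓝 (G x), ∃ W ∈ 𝓝 x, ∀ᶠ m in l, MapsTo (F m) W O

/-- The differential of `F` at `x` is invertible. -/
def Inv (F : X → X) (x : X) : Prop :=
  MDifferentiableAt 𝓘(ℂ, E) 𝓘(ℂ, E) F x ∧
    Function.Bijective (mfderiv 𝓘(ℂ, E) 𝓘(ℂ, E) F x)

/-- `F` is holomorphic on the (open) set `U`. -/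
abbrev Hol (U : Set X) (F : X → X) : Prop := MDifferentiableOn 𝓘(ℂ, E) 𝓘(ℂ, E) F U

end

/-- Discs in a compact set of a manifold without bounded entire curves are equicontinuous
(Zalcman–Brody rescaling). -/
def S_DISC : Prop :=
  ∀ (E : Type u) [NormedAddCommGroup E] [NormedSpace ℂ E] [FiniteDimensional ℂ E]
    (X : Type v) [TopologicalSpace X] [ChartedSpace E X] [IsManifold 𝓘(ℂ, E) 1 X] [T2Space X],
    NoCurve E X → ∀ C : Set X, IsCompact C → ∀ g : ℕ → ℂ → X,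
    (∀ k, MDifferentiableOn 𝓘(ℂ, ℂ) 𝓘(ℂ, E) (g k) (ball 0 1)) →
    (∀ k, MapsTo (g k) (ball 0 1) C) → ∀ y : X, Tendsto (fun k => g k 0) atTop (𝓝 y) →
    ∀ t : ℕ → ℂ, Tendsto t atTop (𝓝 0) → Tendsto (fun k => g k (t k)) atTop (𝓝 y)

/-- Existence of limits along ultrafilters. -/
def S_EQ : Prop :=
  ∀ (E : Type u) [NormedAddCommGroup E] [NormedSpace ℂ E] [FiniteDimensional ℂ E]
    (X : Type v) [TopologicalSpace X] [ChartedSpace E X] [IsManifold 𝓘(ℂ, E) 1 X] [T2Space X]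
    [SecondCountableTopology X],
    NoCurve E X → ∀ (l : Ultrafilter ℕ) (U C : Set X), IsOpen U → IsCompact C →
    ∀ F : ℕ → X → X, (∀ᶠ m in (l : Filter ℕ), Hol E U (F m) ∧ MapsTo (F m) U C) →
    ∃ G : X → X, MapsTo G U C ∧ Conv (l : Filter ℕ) U F G

/-- The limit is holomorphic. -/
def S_MLIM : Prop :=
  ∀ (E : Type u) [NormedAddCommGroup E] [NormedSpace ℂ E] [FiniteDimensional ℂ E]
    (X : Type v) [TopologicalSpace X] [ChartedSpace E X] [IsManifold 𝓘(ℂ, E) 1 X] [T2Space X]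
    (l : Filter ℕ) [l.NeBot] (U : Set X) (F : ℕ → X → X) (G : X → X), IsOpen U →
    (∀ᶠ m in l, Hol E U (F m)) → Conv l U F G → Hol E U G

/-- Local surjectivity near points where the limit has invertible differential. -/
def S_MNI : Prop :=
  ∀ (E : Type u) [NormedAddCommGroup E] [NormedSpace ℂ E] [FiniteDimensional ℂ E]
    (X : Type v) [TopologicalSpace X] [ChartedSpace E X] [IsManifold 𝓘(ℂ, E) 1 X] [T2Space X]
    (l : Filter ℕ) [l.NeBot] (U : Set X) (F : ℕ → X → X) (G : X → X), IsOpen U →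
    (∀ᶠ m in l, Hol E U (F m)) → Conv l U F G → ∀ y ∈ U, Inv E G y → ∀ W ∈ 𝓝 y,
    ∃ O ∈ 𝓝 (G y), ∀ᶠ m in l, ∀ o ∈ O, ∃ z ∈ W, F m z = o ∧ Inv E (F m) z

/-- Identity theorem. -/
def S_MID : Prop :=
  ∀ (E : Type u) [NormedAddCommGroup E] [NormedSpace ℂ E] [FiniteDimensional ℂ E]
    (X : Type v) [TopologicalSpace X] [ChartedSpace E X] [IsManifold 𝓘(ℂ, E) 1 X] [T2Space X]
    (W O : Set X) (F G : X → X), IsOpen W → IsPreconnected W → IsOpen O → O.Nonempty → O ⊆ W →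
    Hol E W F → Hol E W G → (∀ x ∈ O, F x = G x) → ∀ x ∈ W, F x = G x

/-- If the differential is invertible at one point, then on a dense set. -/
def S_MDET : Prop :=
  ∀ (E : Type u) [NormedAddCommGroup E] [NormedSpace ℂ E] [FiniteDimensional ℂ E]
    (X : Type v) [TopologicalSpace X] [ChartedSpace E X] [IsManifold 𝓘(ℂ, E) 1 X] [T2Space X]
    (W O : Set X) (F : X → X), IsOpen W → IsPreconnected W → Hol E W F →
    (∃ y ∈ W, Inv E F y) → IsOpen O → O.Nonempty → O ⊆ W → ∃ z ∈ O, Inv E F z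

end Pool.Agent.H559.NT
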